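import Mathlib

set_option autoImplicit false

/-!
# Anticoncentration of the difference of the numbers of ones of two random bit strings
-/

namespace Pool.Agent.BinPair

open Finset

lemma centralBinom_sq_le (m : ℕ) : m.centralBinom ^ 2 * (2 * m + 1) ≤ 16 ^ m := by
  induction m with
  | zero => simp
  | succ m ih =>
    have h1 := Nat.succ_mul_centralBinom_succ m
    have h2 : (m + 1) ^ 2 * ((m + 1).centralBinom ^ 2 * (2 * (m + 1) + 1)) ≤
        (m + 1) ^ 2 * 16 ^ (m + 1) := by
      calc (m + 1) ^ 2 * ((m + 1).centralBinom ^ 2 * (2 * (m + 1) + 1))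
          = ((m + 1) * (m + 1).centralBinom) ^ 2 * (2 * (m + 1) + 1) := by ring
        _ = (2 * (2 * m + 1) * m.centralBinom) ^ 2 * (2 * (m + 1) + 1) := by rw [h1]
        _ = (m.centralBinom ^ 2 * (2 * m + 1)) * (4 * ((2 * m + 1) * (2 * m + 3))) := by ring
        _ ≤ 16 ^ m * (4 * ((2 * m + 1) * (2 * m + 3))) := Nat.mul_le_mul_right _ ih
        _ ≤ 16 ^ m * (4 * (4 * (m + 1) ^ 2)) := by
            refine Nat.mul_le_mul_left _ (Nat.mul_le_mul_left _ ?_)
            nlinarith
        _ = (m + 1) ^ 2 * 16 ^ (m + 1) := by ring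
    exact Nat.le_of_mul_le_mul_left h2 (by positivity)

lemma centralBinom_sq_mul_le (n : ℕ) : (n ^ 2).centralBinom * n ≤ 4 ^ n ^ 2 := by
  have h1 := centralBinom_sq_le (n ^ 2)
  have h2 : ((n ^ 2).centralBinom * n) ^ 2 ≤ (4 ^ n ^ 2) ^ 2 := by
    calc ((n ^ 2).centralBinom * n) ^ 2 = (n ^ 2).centralBinom ^ 2 * n ^ 2 := by ring
      _ ≤ (n ^ 2).centralBinom ^ 2 * (2 * n ^ 2 + 1) := Nat.mul_le_mul_left _
          (by nlinarith [Nat.zero_le (n ^ 2)])
      _ ≤ 16 ^ n ^ 2 := h1
      _ = (4 ^ n ^ 2) ^ 2 := by rw [← pow_mul, mul_comm, pow_mul]; norm_num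
  exact (Nat.pow_le_pow_iff_left (by norm_num)).1 h2

variable {κ : Type} [Fintype κ] [DecidableEq κ]

/-- The number of ones. -/
def trues (x : κ → Bool) : ℕ := (univ.filter fun k => x k = true).card

/-- The set coding a pair of strings. -/
def code (p : (κ → Bool) × (κ → Bool)) : Finset (κ ⊕ κ) :=
  (univ.filter fun a => p.1 a = true).disjSum (univ.filter fun b => p.2 b = false)

lemma code_inj : Function.Injective (code (κ := κ)) := by
  rintro ⟨x, y⟩ ⟨x', y'⟩ h
  have h1 : ∀ s, s ∈ code (x, y) ↔ s ∈ code (x', y') := fun s => by rw [h]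
  refine Prod.ext (funext fun a => ?_) (funext fun b => ?_)
  · have := h1 (Sum.inl a)
    simp only [code, inl_mem_disjSum, mem_filter, mem_univ, true_and] at this
    show x a = x' a
    cases h2 : x a <;> cases h3 : x' a <;> simp_all
  · have := h1 (Sum.inr b)
    simp only [code, inr_mem_disjSum, mem_filter, mem_univ, true_and] at this
    show y b = y' b
    cases h2 : y b <;> cases h3 : y' b <;> simp_all

lemma code_card (p : (κ → Bool) × (κ → Bool)) :
    (code p).card + trues p.2 = trues p.1 + Fintype.card κ := by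
  have h2 : (univ.filter fun b => p.2 b = false).card + trues p.2 = Fintype.card κ := by
    rw [trues, ← card_univ, ← card_filter_add_card_filter_not (s := univ)
      (fun b => p.2 b = false)]
    congr 2
    ext b
    simp
  rw [code, card_disjSum, add_assoc, h2]
  rfl

theorem card_near (h : ℕ) : (univ.filter fun p : (κ → Bool) × (κ → Bool) =>
    trues p.1 ≤ trues p.2 + h ∧ trues p.2 ≤ trues p.1 + h).card ≤
      (2 * h + 1) * (Fintype.card κ).centralBinom := by
  set N := Fintype.card κ with hN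
  have h1 : ((univ.filter fun p : (κ → Bool) × (κ → Bool) =>
      trues p.1 ≤ trues p.2 + h ∧ trues p.2 ≤ trues p.1 + h).image code) ⊆
      (Icc (N - h) (N + h)).biUnion fun j => powersetCard j univ := by
    intro s hs
    rw [mem_image] at hs
    obtain ⟨p, hp, rfl⟩ := hs
    simp only [mem_filter, mem_univ, true_and] at hp
    rw [mem_biUnion]
    have h2 := code_card p
    refine ⟨(code p).card, ?_, ?_⟩
    · rw [mem_Icc]; omega
    · rw [mem_powersetCard]; exact ⟨subset_univ _, rfl⟩
  have h2 := card_le_card h1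
  rw [card_image_of_injective _ code_inj] at h2
  refine h2.trans (card_biUnion_le.trans ?_)
  calc ∑ j ∈ Icc (N - h) (N + h), (powersetCard j (univ : Finset (κ ⊕ κ))).card
      ≤ ∑ _j ∈ Icc (N - h) (N + h), N.centralBinom := by
        refine sum_le_sum fun j _ => ?_
        rw [card_powersetCard, card_univ, Fintype.card_sum, ← two_mul, ← hN]
        exact Nat.choose_le_centralBinom j N
    _ = (Icc (N - h) (N + h)).card * N.centralBinom := by rw [sum_const, smul_eq_mul]
    _ ≤ (2 * h + 1) * N.centralBinom := by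
        refine Nat.mul_le_mul_right _ ?_
        rw [Nat.card_Icc]; omega

/-- Sums of functions of two coordinates. -/
lemma sum_two {α K : Type} [Fintype α] [DecidableEq α] [Fintype K] {i j : α} (hij : i ≠ j)
    (G : K → K → ℕ) :
    Fintype.card K ^ 2 * ∑ ω : α → K, G (ω i) (ω j) =
      Fintype.card K ^ Fintype.card α * ∑ x, ∑ y, G x y := by
  classical
  let φ : (α → K) × K × K → (α → K) × K × K := fun p =>
    (Function.update (Function.update p.1 i p.2.1) j p.2.2, p.1 i, p.1 j)
  have hφ : Function.Involutive φ := by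
    rintro ⟨ω, x, y⟩
    simp only [φ]
    refine Prod.ext ?_ (Prod.ext ?_ ?_)
    · funext k
      by_cases hk : k = j
      · subst hk; simp
      · by_cases hki : k = i
        · subst hki; simp [hk]
        · simp [hk, hki]
    · simp [Function.update_of_ne hij]
    · simp
  have h1 : ∑ p : (α → K) × K × K, G ((φ p).1 i) ((φ p).1 j) =
      ∑ p : (α → K) × K × K, G (p.1 i) (p.1 j) :=
    Equiv.sum_comp hφ.toPerm fun p => G (p.1 i) (p.1 j)
  have h2 : ∀ p : (α → K) × K × K, G ((φ p).1 i) ((φ p).1 j) = G p.2.1 p.2.2 := by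
    rintro ⟨ω, x, y⟩
    simp only [φ]
    congr 1
    · simp [Function.update_of_ne hij]
    · simp
  simp only [h2] at h1
  rw [Fintype.sum_prod_type, Fintype.sum_prod_type] at h1
  simp only [Fintype.sum_prod_type, sum_const, card_univ, smul_eq_mul, Fintype.card_prod,
    Fintype.card_fun] at h1
  rw [h1, mul_sum]
  exact sum_congr rfl fun ω _ => by rw [sq]

/-- The number of families in which two given strings have almost the same number of ones. -/
theorem card_near_family {α : Type} [Fintype α] [DecidableEq α] {i j : α} (hij : i ≠ j)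
    (n h : ℕ) (hκ : Fintype.card κ = n ^ 2) :
    n * (univ.filter fun ω : α → κ → Bool =>
      trues (ω i) ≤ trues (ω j) + h ∧ trues (ω j) ≤ trues (ω i) + h).card ≤
      (2 * h + 1) * 2 ^ (Fintype.card α * n ^ 2) := by
  have h1 := sum_two (K := κ → Bool) hij
    (fun x y => if trues x ≤ trues y + h ∧ trues y ≤ trues x + h then 1 else 0)
  rw [← Fintype.sum_prod_type' (f := fun x y : κ → Bool =>
    if trues x ≤ trues y + h ∧ trues y ≤ trues x + h then 1 else 0)] at h1
  rw [sum_boole, sum_boole] at h1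
  simp only [Nat.cast_id, Fintype.card_fun, Fintype.card_bool, hκ] at h1
  have h2 := card_near (κ := κ) h
  have h3 := centralBinom_sq_mul_le n
  rw [hκ] at h2
  set c := (univ.filter fun ω : α → κ → Bool =>
      trues (ω i) ≤ trues (ω j) + h ∧ trues (ω j) ≤ trues (ω i) + h).card with hc
  set b := (univ.filter fun p : (κ → Bool) × (κ → Bool) =>
    trues p.1 ≤ trues p.2 + h ∧ trues p.2 ≤ trues p.1 + h).card with hb
  have h4 : (4 : ℕ) ^ n ^ 2 = (2 ^ n ^ 2) ^ 2 := by
    rw [← pow_mul, mul_comm, pow_mul]; norm_num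
  have h5 : (2 ^ n ^ 2) ^ 2 * (n * c) ≤
      (2 ^ n ^ 2) ^ 2 * ((2 * h + 1) * 2 ^ (Fintype.card α * n ^ 2)) := by
    calc (2 ^ n ^ 2) ^ 2 * (n * c) = n * ((2 ^ n ^ 2) ^ 2 * c) := by ring
      _ = n * ((2 ^ n ^ 2) ^ Fintype.card α * b) := by rw [h1]
      _ ≤ n * ((2 ^ n ^ 2) ^ Fintype.card α * ((2 * h + 1) * (n ^ 2).centralBinom)) := by
          exact Nat.mul_le_mul_left _ (Nat.mul_le_mul_left _ h2)
      _ = (2 ^ n ^ 2) ^ Fintype.card α * (2 * h + 1) * ((n ^ 2).centralBinom * n) := by ring
      _ ≤ (2 ^ n ^ 2) ^ Fintype.card α * (2 * h + 1) * (4 ^ n ^ 2) := Nat.mul_le_mul_left _ h3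
      _ = (2 ^ n ^ 2) ^ 2 * ((2 * h + 1) * 2 ^ (Fintype.card α * n ^ 2)) := by
          rw [h4, ← pow_mul, mul_comm (n ^ 2) (Fintype.card α)]; ring
  exact Nat.le_of_mul_le_mul_left h5 (by positivity)

end Pool.Agent.BinPair
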