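import Pool.Agent.BinPair.Mom
import Pool.Agent.BinPair.Anti

set_option autoImplicit false

/-!
# Counting the exceptional families
-/

namespace Pool.Agent.BinPair

open Finset

variable {q n : ℕ}

/-- Families of `q` bit matrices. -/
abbrev Fam (q n : ℕ) : Type := Fin q → Fin n × Fin n → Bool

/-- The signs of a family. -/
def S (ω : Fam q n) (i : Fin q) (a b : Fin n) : ℝ := sg (ω i (a, b))

lemma mom {T : Type} [Fintype T] [DecidableEq T] (e f : T → Fin q × (Fin n × Fin n))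
    (hinj : Function.Injective fun t => (e t, f t)) (D N : ℕ)
    (hD : (univ.filter fun t => e t = f t).card ≤ D) (hN : Fintype.card T ≤ N) :
    ∑ ω : Fam q n, (∑ t, sg (ω (e t).1 (e t).2) * sg (ω (f t).1 (f t).2)) ^ 2 ≤
      ((D : ℝ) ^ 2 + 2 * N) * 2 ^ (q * n ^ 2) := by
  have h1 := second_moment e f hinj
  have h2 := Equiv.sum_comp (Equiv.curry (Fin q) (Fin n × Fin n) Bool)
    (fun ω : Fam q n => (∑ t, sg (ω (e t).1 (e t).2) * sg (ω (f t).1 (f t).2)) ^ 2)
  rw [← h2]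
  have h3 : Fintype.card (Fin q × (Fin n × Fin n)) = q * n ^ 2 := by
    simp [sq]
  rw [h3] at h1
  refine le_trans h1 (mul_le_mul_of_nonneg_right ?_ (by positivity))
  have h4 : ((univ.filter fun t => e t = f t).card : ℝ) ≤ D := by exact_mod_cast hD
  have h5 : (Fintype.card T : ℝ) ≤ N := by exact_mod_cast hN
  have h6 : ((univ.filter fun t => e t = f t).card : ℝ) ^ 2 ≤ (D : ℝ) ^ 2 :=
    pow_le_pow_left₀ (by positivity) h4 2
  linarith

/-- first condition -/
lemma m1 (i : Fin q) :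
    ∑ ω : Fam q n, ∑ a, ∑ a', (∑ j, S ω i a j * S ω i a' j) ^ 2 ≤
      3 * (n : ℝ) ^ 3 * 2 ^ (q * n ^ 2) := by
  rw [sum_comm]
  have h1 : ∀ a a' : Fin n, ∑ ω : Fam q n, (∑ j, S ω i a j * S ω i a' j) ^ 2 ≤
      ((if a = a' then (n : ℝ) ^ 2 else 0) + 2 * n) * 2 ^ (q * n ^ 2) := by
    intro a a'
    by_cases h : a = a'
    · rw [if_pos h]
      have := mom (q := q) (n := n) (T := Fin n) (fun j => (i, (a, j))) (fun j => (i, (a', j)))
        (fun x y hxy => by simpa using hxy) n n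
        ((card_le_univ _).trans (by simp)) (by simp)
      exact this
    · rw [if_neg h]
      have := mom (q := q) (n := n) (T := Fin n) (fun j => (i, (a, j))) (fun j => (i, (a', j)))
        (fun x y hxy => by simpa using hxy) 0 n
        (by simp [h]) (by simp)
      simpa [S] using this
  calc ∑ a, ∑ ω : Fam q n, ∑ a', (∑ j, S ω i a j * S ω i a' j) ^ 2
      = ∑ a, ∑ a', ∑ ω : Fam q n, (∑ j, S ω i a j * S ω i a' j) ^ 2 :=
        sum_congr rfl fun a _ => sum_comm
    _ ≤ ∑ a : Fin n, ∑ a' : Fin n, ((if a = a' then (n : ℝ) ^ 2 else 0) + 2 * n) *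
        2 ^ (q * n ^ 2) := sum_le_sum fun a _ => sum_le_sum fun a' _ => h1 a a'
    _ = 3 * (n : ℝ) ^ 3 * 2 ^ (q * n ^ 2) := by
        simp only [← sum_mul, sum_add_distrib, sum_ite_eq, mem_univ, if_true, sum_const,
          card_univ, Fintype.card_fin, nsmul_eq_mul]
        ring

/-- second condition -/
lemma m2 (i : Fin q) :
    ∑ ω : Fam q n, (∑ a, (∑ b, S ω i a b) ^ 2) ^ 2 ≤ 3 * (n : ℝ) ^ 4 * 2 ^ (q * n ^ 2) := by
  rcases Nat.eq_zero_or_pos n with h0 | h0
  · subst h0; simp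
  have h1 := mom (q := q) (n := n) (T := Fin n × Fin n × Fin n) (fun t => (i, (t.1, t.2.1)))
    (fun t => (i, (t.1, t.2.2)))
    (fun x y hxy => by
      simp only [Prod.mk.injEq, true_and] at hxy
      exact Prod.ext hxy.1.1 (Prod.ext hxy.1.2 hxy.2.2)) (n ^ 2) (n ^ 3) ?_ (by simp; ring_nf; rfl)
  · have h2 : ∀ ω : Fam q n, ∑ a, (∑ b, S ω i a b) ^ 2 =
        ∑ t : Fin n × Fin n × Fin n, sg (ω i (t.1, t.2.1)) * sg (ω i (t.1, t.2.2)) := by
      intro ω
      rw [Fintype.sum_prod_type]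
      refine sum_congr rfl fun a _ => ?_
      rw [Fintype.sum_prod_type, sq, sum_mul_sum]
      rfl
    simp only [h2]
    refine h1.trans (mul_le_mul_of_nonneg_right ?_ (by positivity))
    push_cast
    have h3 : (1 : ℝ) ≤ n := by exact_mod_cast h0
    have h4 : (n : ℝ) ^ 3 ≤ (n : ℝ) ^ 4 := pow_le_pow_right₀ h3 (by norm_num)
    nlinarith
  · calc (univ.filter fun t : Fin n × Fin n × Fin n =>
          (i, (t.1, t.2.1)) = (i, (t.1, t.2.2))).card
        ≤ ((univ : Finset (Fin n × Fin n)).image fun p => (p.1, p.2, p.2)).card := by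
          refine card_le_card fun t ht => ?_
          simp only [mem_filter, mem_univ, true_and, Prod.mk.injEq] at ht
          rw [mem_image]
          exact ⟨(t.1, t.2.1), mem_univ _, Prod.ext rfl (Prod.ext rfl ht)⟩
      _ ≤ n ^ 2 := card_image_le.trans (by simp [sq])

lemma m2' (i : Fin q) :
    ∑ ω : Fam q n, (∑ b, (∑ a, S ω i a b) ^ 2) ^ 2 ≤ 3 * (n : ℝ) ^ 4 * 2 ^ (q * n ^ 2) := by
  rcases Nat.eq_zero_or_pos n with h0 | h0
  · subst h0; simp
  have h1 := mom (q := q) (n := n) (T := Fin n × Fin n × Fin n) (fun t => (i, (t.2.1, t.1)))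
    (fun t => (i, (t.2.2, t.1)))
    (fun x y hxy => by
      simp only [Prod.mk.injEq, true_and] at hxy
      exact Prod.ext hxy.1.2 (Prod.ext hxy.1.1 hxy.2.1)) (n ^ 2) (n ^ 3) ?_ (by simp; ring_nf; rfl)
  · have h2 : ∀ ω : Fam q n, ∑ b, (∑ a, S ω i a b) ^ 2 =
        ∑ t : Fin n × Fin n × Fin n, sg (ω i (t.2.1, t.1)) * sg (ω i (t.2.2, t.1)) := by
      intro ω
      rw [Fintype.sum_prod_type]
      refine sum_congr rfl fun a _ => ?_
      rw [Fintype.sum_prod_type, sq, sum_mul_sum]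
      rfl
    simp only [h2]
    refine h1.trans (mul_le_mul_of_nonneg_right ?_ (by positivity))
    push_cast
    have h3 : (1 : ℝ) ≤ n := by exact_mod_cast h0
    have h4 : (n : ℝ) ^ 3 ≤ (n : ℝ) ^ 4 := pow_le_pow_right₀ h3 (by norm_num)
    nlinarith
  · calc (univ.filter fun t : Fin n × Fin n × Fin n =>
          (i, (t.2.1, t.1)) = (i, (t.2.2, t.1))).card
        ≤ ((univ : Finset (Fin n × Fin n)).image fun p => (p.1, p.2, p.2)).card := by
          refine card_le_card fun t ht => ?_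
          simp only [mem_filter, mem_univ, true_and, Prod.mk.injEq, and_true] at ht
          rw [mem_image]
          exact ⟨(t.1, t.2.1), mem_univ _, Prod.ext rfl (Prod.ext rfl ht)⟩
      _ ≤ n ^ 2 := card_image_le.trans (by simp [sq])

lemma m3 (i j : Fin q) :
    ∑ ω : Fam q n, (∑ b, (∑ a, S ω i a b) * (∑ c, S ω j b c)) ^ 2 ≤
      3 * (n : ℝ) ^ 3 * 2 ^ (q * n ^ 2) := by
  rcases Nat.eq_zero_or_pos n with h0 | h0
  · subst h0; simp
  have h1 := mom (q := q) (n := n) (T := Fin n × Fin n × Fin n) (fun t => (i, (t.2.1, t.1)))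
    (fun t => (j, (t.1, t.2.2)))
    (fun x y hxy => by
      simp only [Prod.mk.injEq, true_and] at hxy
      exact Prod.ext hxy.1.2 (Prod.ext hxy.1.1 hxy.2.2)) n (n ^ 3) ?_ (by simp; ring_nf; rfl)
  · have h2 : ∀ ω : Fam q n, ∑ b, (∑ a, S ω i a b) * (∑ c, S ω j b c) =
        ∑ t : Fin n × Fin n × Fin n, sg (ω i (t.2.1, t.1)) * sg (ω j (t.1, t.2.2)) := by
      intro ω
      rw [Fintype.sum_prod_type]
      refine sum_congr rfl fun a _ => ?_
      rw [Fintype.sum_prod_type, sum_mul_sum]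
      rfl
    simp only [h2]
    refine h1.trans (mul_le_mul_of_nonneg_right ?_ (by positivity))
    push_cast
    have h3 : (1 : ℝ) ≤ n := by exact_mod_cast h0
    have h4 : (n : ℝ) ^ 2 ≤ (n : ℝ) ^ 3 := pow_le_pow_right₀ h3 (by norm_num)
    nlinarith
  · calc (univ.filter fun t : Fin n × Fin n × Fin n =>
          (i, (t.2.1, t.1)) = (j, (t.1, t.2.2))).card
        ≤ ((univ : Finset (Fin n)).image fun p => (p, p, p)).card := by
          refine card_le_card fun t ht => ?_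
          simp only [mem_filter, mem_univ, true_and, Prod.mk.injEq] at ht
          rw [mem_image]
          exact ⟨t.1, mem_univ _, Prod.ext rfl (Prod.ext ht.2.1.symm ht.2.2)⟩
      _ ≤ n := card_image_le.trans (by simp)

lemma m4 (i : Fin q) :
    ∑ ω : Fam q n, ((∑ a, ∑ b, S ω i a b) ^ 2) ^ 2 ≤ 3 * (n : ℝ) ^ 4 * 2 ^ (q * n ^ 2) := by
  have h1 := mom (q := q) (n := n) (T := (Fin n × Fin n) × Fin n × Fin n) (fun t => (i, t.1))
    (fun t => (i, t.2))
    (fun x y hxy => by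
      simp only [Prod.mk.injEq, true_and] at hxy
      exact Prod.ext hxy.1 hxy.2) (n ^ 2) (n ^ 4) ?_ (by simp; ring_nf; rfl)
  · have h2 : ∀ ω : Fam q n, (∑ a, ∑ b, S ω i a b) ^ 2 =
        ∑ t : (Fin n × Fin n) × Fin n × Fin n, sg (ω i t.1) * sg (ω i t.2) := by
      intro ω
      have e1 : ∑ a, ∑ b, S ω i a b = ∑ p : Fin n × Fin n, sg (ω i p) :=
        (Fintype.sum_prod_type fun p : Fin n × Fin n => sg (ω i p)).symm
      rw [e1, sq, sum_mul_sum]
      exact (Fintype.sum_prod_type fun t : (Fin n × Fin n) × Fin n × Fin n =>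
        sg (ω i t.1) * sg (ω i t.2)).symm
    simp only [h2]
    refine h1.trans (mul_le_mul_of_nonneg_right ?_ (by positivity))
    push_cast
    nlinarith
  · calc (univ.filter fun t : (Fin n × Fin n) × Fin n × Fin n =>
          (i, t.1) = (i, t.2)).card
        ≤ ((univ : Finset (Fin n × Fin n)).image fun p => (p, p)).card := by
          refine card_le_card fun t ht => ?_
          simp only [mem_filter, mem_univ, true_and, Prod.mk.injEq] at ht
          rw [mem_image]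
          exact ⟨t.1, mem_univ _, Prod.ext rfl ht⟩
      _ ≤ n ^ 2 := card_image_le.trans (by simp [sq])

/-- The exceptional families. -/
noncomputable def Bad (q n : ℕ) (w : ℝ) (h : ℕ) : Finset (Fam q n) :=
  ((univ : Finset (Fin q)).biUnion fun i =>
    (univ.filter fun ω : Fam q n => w ^ 88 < ∑ a, ∑ a', (∑ j, S ω i a j * S ω i a' j) ^ 2) ∪
    (univ.filter fun ω : Fam q n => w ^ 116 < (∑ a, (∑ b, S ω i a b) ^ 2) ^ 2) ∪
    (univ.filter fun ω : Fam q n => w ^ 116 < (∑ b, (∑ a, S ω i a b) ^ 2) ^ 2) ∪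
    (univ.filter fun ω : Fam q n => w ^ 116 < ((∑ a, ∑ b, S ω i a b) ^ 2) ^ 2)) ∪
  (univ : Finset (Fin q × Fin q)).biUnion fun p =>
    (univ.filter fun ω : Fam q n =>
      w ^ 88 < (∑ b, (∑ a, S ω p.1 a b) * (∑ c, S ω p.2 b c)) ^ 2) ∪
    (univ.filter fun ω : Fam q n => p.1 ≠ p.2 ∧
      trues (ω p.1) ≤ trues (ω p.2) + h ∧ trues (ω p.2) ≤ trues (ω p.1) + h)

lemma card_bad (w : ℝ) (hw : 1 ≤ w) (hn : w ^ 28 = n) (h : ℕ) (hh : (h : ℝ) ≤ 41 * w ^ 24) :
    ((Bad q n w h).card : ℝ) ≤ 98 * (q : ℝ) ^ 2 / w ^ 4 * 2 ^ (q * n ^ 2) := by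
  classical
  have hw0 : 0 < w := by linarith
  set P : ℝ := 2 ^ (q * n ^ 2) with hP
  have hP0 : 0 < P := by positivity
  have hn0 : 0 < n := by
    have : (0 : ℝ) < n := by rw [← hn]; positivity
    exact_mod_cast this
  have n3 : (n : ℝ) ^ 3 = w ^ 84 := by rw [← hn]; ring
  have n4 : (n : ℝ) ^ 4 = w ^ 112 := by rw [← hn]; ring
  have b1 : ∀ i : Fin q, ((univ.filter fun ω : Fam q n =>
      w ^ 88 < ∑ a, ∑ a', (∑ j, S ω i a j * S ω i a' j) ^ 2).card : ℝ) ≤ 3 / w ^ 4 * P := by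
    intro i
    have := markov (fun ω : Fam q n => ∑ a, ∑ a', (∑ j, S ω i a j * S ω i a' j) ^ 2)
      (fun ω => by positivity) _ (w ^ 88) (by positivity) (m1 i)
    refine this.trans (le_of_eq ?_)
    rw [n3, ← hP]; field_simp
  have b2 : ∀ i : Fin q, ((univ.filter fun ω : Fam q n =>
      w ^ 116 < (∑ a, (∑ b, S ω i a b) ^ 2) ^ 2).card : ℝ) ≤ 3 / w ^ 4 * P := by
    intro i
    have := markov (fun ω : Fam q n => (∑ a, (∑ b, S ω i a b) ^ 2) ^ 2)
      (fun ω => by positivity) _ (w ^ 116) (by positivity) (m2 i)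
    refine this.trans (le_of_eq ?_)
    rw [n4, ← hP]; field_simp
  have b3 : ∀ i : Fin q, ((univ.filter fun ω : Fam q n =>
      w ^ 116 < (∑ b, (∑ a, S ω i a b) ^ 2) ^ 2).card : ℝ) ≤ 3 / w ^ 4 * P := by
    intro i
    have := markov (fun ω : Fam q n => (∑ b, (∑ a, S ω i a b) ^ 2) ^ 2)
      (fun ω => by positivity) _ (w ^ 116) (by positivity) (m2' i)
    refine this.trans (le_of_eq ?_)
    rw [n4, ← hP]; field_simp
  have b4 : ∀ i : Fin q, ((univ.filter fun ω : Fam q n =>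
      w ^ 116 < ((∑ a, ∑ b, S ω i a b) ^ 2) ^ 2).card : ℝ) ≤ 3 / w ^ 4 * P := by
    intro i
    have := markov (fun ω : Fam q n => ((∑ a, ∑ b, S ω i a b) ^ 2) ^ 2)
      (fun ω => by positivity) _ (w ^ 116) (by positivity) (m4 i)
    refine this.trans (le_of_eq ?_)
    rw [n4, ← hP]; field_simp
  have b5 : ∀ p : Fin q × Fin q, ((univ.filter fun ω : Fam q n =>
      w ^ 88 < (∑ b, (∑ a, S ω p.1 a b) * (∑ c, S ω p.2 b c)) ^ 2).card : ℝ) ≤
      3 / w ^ 4 * P := by
    intro p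
    have := markov (fun ω : Fam q n => (∑ b, (∑ a, S ω p.1 a b) * (∑ c, S ω p.2 b c)) ^ 2)
      (fun ω => by positivity) _ (w ^ 88) (by positivity) (m3 p.1 p.2)
    refine this.trans (le_of_eq ?_)
    rw [n3, ← hP]; field_simp
  have b6 : ∀ p : Fin q × Fin q, ((univ.filter fun ω : Fam q n => p.1 ≠ p.2 ∧
      trues (ω p.1) ≤ trues (ω p.2) + h ∧ trues (ω p.2) ≤ trues (ω p.1) + h).card : ℝ) ≤
      83 / w ^ 4 * P := by
    intro p
    by_cases hp : p.1 = p.2
    · have : (univ.filter fun ω : Fam q n => p.1 ≠ p.2 ∧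
          trues (ω p.1) ≤ trues (ω p.2) + h ∧ trues (ω p.2) ≤ trues (ω p.1) + h) = ∅ := by
        apply filter_false_of_mem
        intro ω _ hω
        exact hω.1 hp
      rw [this]
      simp only [card_empty, Nat.cast_zero]
      positivity
    · have h1 := card_near_family (κ := Fin n × Fin n) hp n h (by simp [sq])
      have h2 : (univ.filter fun ω : Fam q n => p.1 ≠ p.2 ∧
          trues (ω p.1) ≤ trues (ω p.2) + h ∧ trues (ω p.2) ≤ trues (ω p.1) + h) =
          (univ.filter fun ω : Fam q n =>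
          trues (ω p.1) ≤ trues (ω p.2) + h ∧ trues (ω p.2) ≤ trues (ω p.1) + h) := by
        apply filter_congr
        intro ω _
        simp [hp]
      rw [h2]
      have h3 : (n : ℝ) * ((univ.filter fun ω : Fam q n =>
          trues (ω p.1) ≤ trues (ω p.2) + h ∧ trues (ω p.2) ≤ trues (ω p.1) + h).card : ℝ) ≤
          (2 * h + 1) * P := by
        rw [hP]
        rw [Fintype.card_fin] at h1
        exact_mod_cast h1
      have h4 : (1 : ℝ) ≤ w ^ 24 := one_le_pow₀ hw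
      have h5 : (2 * (h : ℝ) + 1) ≤ 83 * w ^ 24 := by linarith
      have h6 : (n : ℝ) * ((univ.filter fun ω : Fam q n =>
          trues (ω p.1) ≤ trues (ω p.2) + h ∧ trues (ω p.2) ≤ trues (ω p.1) + h).card : ℝ) ≤
          n * (83 / w ^ 4 * P) := by
        refine (h3.trans (mul_le_mul_of_nonneg_right h5 hP0.le)).trans (le_of_eq ?_)
        rw [← hn]; field_simp
      exact le_of_mul_le_mul_left h6 (by exact_mod_cast hn0)
  have u1 : ((((univ : Finset (Fin q)).biUnion fun i =>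
    (univ.filter fun ω : Fam q n => w ^ 88 < ∑ a, ∑ a', (∑ j, S ω i a j * S ω i a' j) ^ 2) ∪
    (univ.filter fun ω : Fam q n => w ^ 116 < (∑ a, (∑ b, S ω i a b) ^ 2) ^ 2) ∪
    (univ.filter fun ω : Fam q n => w ^ 116 < (∑ b, (∑ a, S ω i a b) ^ 2) ^ 2) ∪
    (univ.filter fun ω : Fam q n => w ^ 116 < ((∑ a, ∑ b, S ω i a b) ^ 2) ^ 2))).card : ℝ) ≤
      q * (12 / w ^ 4 * P) := by
    refine (Nat.cast_le.2 card_biUnion_le).trans ?_
    push_cast
    calc _ ≤ ∑ _i : Fin q, 12 / w ^ 4 * P := by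
          refine sum_le_sum fun i _ => ?_
          have c1 := card_union_le ((univ.filter fun ω : Fam q n =>
            w ^ 88 < ∑ a, ∑ a', (∑ j, S ω i a j * S ω i a' j) ^ 2) ∪
            (univ.filter fun ω : Fam q n => w ^ 116 < (∑ a, (∑ b, S ω i a b) ^ 2) ^ 2) ∪
            (univ.filter fun ω : Fam q n => w ^ 116 < (∑ b, (∑ a, S ω i a b) ^ 2) ^ 2))
            (univ.filter fun ω : Fam q n => w ^ 116 < ((∑ a, ∑ b, S ω i a b) ^ 2) ^ 2)
          have c2 := card_union_le ((univ.filter fun ω : Fam q n =>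
            w ^ 88 < ∑ a, ∑ a', (∑ j, S ω i a j * S ω i a' j) ^ 2) ∪
            (univ.filter fun ω : Fam q n => w ^ 116 < (∑ a, (∑ b, S ω i a b) ^ 2) ^ 2))
            (univ.filter fun ω : Fam q n => w ^ 116 < (∑ b, (∑ a, S ω i a b) ^ 2) ^ 2)
          have c3 := card_union_le (univ.filter fun ω : Fam q n =>
            w ^ 88 < ∑ a, ∑ a', (∑ j, S ω i a j * S ω i a' j) ^ 2)
            (univ.filter fun ω : Fam q n => w ^ 116 < (∑ a, (∑ b, S ω i a b) ^ 2) ^ 2)
          have c4 := c1.trans (Nat.add_le_add_right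
            (c2.trans (Nat.add_le_add_right c3 _)) _)
          refine (Nat.cast_le.2 c4).trans ?_
          push_cast
          have e : 12 / w ^ 4 * P = 3 / w ^ 4 * P + 3 / w ^ 4 * P + 3 / w ^ 4 * P +
            3 / w ^ 4 * P := by ring
          rw [e]
          exact add_le_add (add_le_add (add_le_add (b1 i) (b2 i)) (b3 i)) (b4 i)
      _ = q * (12 / w ^ 4 * P) := by
          rw [sum_const, card_univ, Fintype.card_fin, nsmul_eq_mul]
  have u2 : (((univ : Finset (Fin q × Fin q)).biUnion fun p =>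
    (univ.filter fun ω : Fam q n =>
      w ^ 88 < (∑ b, (∑ a, S ω p.1 a b) * (∑ c, S ω p.2 b c)) ^ 2) ∪
    (univ.filter fun ω : Fam q n => p.1 ≠ p.2 ∧
      trues (ω p.1) ≤ trues (ω p.2) + h ∧ trues (ω p.2) ≤ trues (ω p.1) + h)).card : ℝ) ≤
      q ^ 2 * (86 / w ^ 4 * P) := by
    refine (Nat.cast_le.2 card_biUnion_le).trans ?_
    push_cast
    calc _ ≤ ∑ _p : Fin q × Fin q, 86 / w ^ 4 * P := by
          refine sum_le_sum fun p _ => ?_
          refine (Nat.cast_le.2 (card_union_le _ _)).trans ?_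
          push_cast
          have e : 86 / w ^ 4 * P = 3 / w ^ 4 * P + 83 / w ^ 4 * P := by ring
          rw [e]
          exact add_le_add (b5 p) (b6 p)
      _ = q ^ 2 * (86 / w ^ 4 * P) := by
          rw [sum_const, card_univ, Fintype.card_prod, Fintype.card_fin, nsmul_eq_mul]
          push_cast
          ring
  have u3 := card_union_le ((univ : Finset (Fin q)).biUnion fun i =>
    (univ.filter fun ω : Fam q n => w ^ 88 < ∑ a, ∑ a', (∑ j, S ω i a j * S ω i a' j) ^ 2) ∪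
    (univ.filter fun ω : Fam q n => w ^ 116 < (∑ a, (∑ b, S ω i a b) ^ 2) ^ 2) ∪
    (univ.filter fun ω : Fam q n => w ^ 116 < (∑ b, (∑ a, S ω i a b) ^ 2) ^ 2) ∪
    (univ.filter fun ω : Fam q n => w ^ 116 < ((∑ a, ∑ b, S ω i a b) ^ 2) ^ 2))
    ((univ : Finset (Fin q × Fin q)).biUnion fun p =>
    (univ.filter fun ω : Fam q n =>
      w ^ 88 < (∑ b, (∑ a, S ω p.1 a b) * (∑ c, S ω p.2 b c)) ^ 2) ∪
    (univ.filter fun ω : Fam q n => p.1 ≠ p.2 ∧
      trues (ω p.1) ≤ trues (ω p.2) + h ∧ trues (ω p.2) ≤ trues (ω p.1) + h))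
  have u4 : ((Bad q n w h).card : ℝ) ≤ q * (12 / w ^ 4 * P) + q ^ 2 * (86 / w ^ 4 * P) := by
    refine (Nat.cast_le.2 u3).trans ?_
    push_cast
    exact add_le_add u1 u2
  have hq : (q : ℝ) ≤ (q : ℝ) ^ 2 := by exact_mod_cast Nat.le_self_pow (by norm_num) q
  have h7 : (0 : ℝ) ≤ 12 / w ^ 4 * P := by positivity
  calc ((Bad q n w h).card : ℝ) ≤ q * (12 / w ^ 4 * P) + q ^ 2 * (86 / w ^ 4 * P) := u4
    _ ≤ q ^ 2 * (12 / w ^ 4 * P) + q ^ 2 * (86 / w ^ 4 * P) := by
        have := mul_le_mul_of_nonneg_right hq h7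
        linarith
    _ = _ := by ring

end Pool.Agent.BinPair
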