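import Mathlib

set_option autoImplicit false

/-!
# Definitions for the theorem on random families of binary matrices
-/

namespace Pool.Agent.BinPair

/-- The binary matrix with the entries `x a b`, as a complex matrix. -/
def mat {n : ℕ} (x : Fin n → Fin n → Bool) : Matrix (Fin n) (Fin n) ℂ :=
  Matrix.of fun a b => if x a b then 1 else 0

/-- The number of ones of a binary matrix. -/
def ones {n : ℕ} (x : Fin n → Fin n → Bool) : ℕ :=
  Fintype.card {p : Fin n × Fin n // x p.1 p.2 = true}

/-- The joint spectral radius of the family `A` is attained by one single matrix `A i` of the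
family, the one with the largest number of ones: every product of `m` matrices of the family has
spectral radius at most `ρ (A i) ^ m`, and the rows of this product have absolute sums at most
`2 √n ρ (A i) ^ m`. -/
def AttainedByDensest {q n : ℕ} (A : Fin q → Fin n → Fin n → Bool) : Prop :=
  ∃ i : Fin q, (∀ j, j ≠ i → ones (A j) < ones (A i)) ∧
    ∀ (m : ℕ) (v : Fin m → Fin q),
      spectralRadius ℂ (List.ofFn fun j => mat (A (v j))).prod ≤
        spectralRadius ℂ (mat (A i)) ^ m ∧
      ∀ a : Fin n, ∑ b, ‖(List.ofFn fun j => mat (A (v j))).prod a b‖ ≤
        2 * √n * (spectralRadius ℂ (mat (A i))).toReal ^ m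

end Pool.Agent.BinPair
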