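import Mathlib

set_option autoImplicit false

/-!
# The deterministic part: operators close to multiples of a rank one projection

`X i` are operators of a real Hilbert space, `u` a unit vector, `X i u` is close to `σ i u` and
`X i` is small on the orthogonal complement of `u`. If `σ a` is larger than the other `σ i` by a
second order quantity then the growth of all products is bounded by the powers of an eigenvalue
of `X a`.
-/

namespace Pool.Agent.BinPair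

open scoped RealInnerProductSpace

/-- The hypotheses. `Y i` is the adjoint of `X i`. -/
structure Sys {H ι : Type} [NormedAddCommGroup H] [InnerProductSpace ℝ H]
    (X Y : ι → H →ₗ[ℝ] H) (u : H) (σ : ι → ℝ) (ρ κ M R d : ℝ) : Prop where
  unit : ‖u‖ = 1
  adj : ∀ i x y, ⟪X i x, y⟫ = ⟪x, Y i y⟫
  sig : ∀ i, ⟪u, X i u⟫ = σ i
  row : ∀ i, ‖X i u - σ i • u‖ ≤ ρ
  col : ∀ i, ‖Y i u - σ i • u‖ ≤ ρ
  opX : ∀ i y, ⟪u, y⟫ = 0 → ‖X i y‖ ≤ κ * ‖y‖
  opY : ∀ i y, ⟪u, y⟫ = 0 → ‖Y i y‖ ≤ κ * ‖y‖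
  cr : ∀ i j, |⟪Y i u - σ i • u, X j u - σ j • u⟫| ≤ M
  ρ0 : 0 ≤ ρ
  κ0 : 0 ≤ κ
  M0 : 0 ≤ M
  R0 : 0 ≤ R
  R1 : R ≤ 1 / 2
  d0 : 0 < d
  dσ : ∀ i, d ≤ σ i - ρ * R
  ball : ρ + κ * R ≤ R * d
  con : κ + R * ρ ≤ d / 2

variable {H ι : Type} [NormedAddCommGroup H] [InnerProductSpace ℝ H]
  {X Y : ι → H →ₗ[ℝ] H} {u : H} {σ : ι → ℝ} {ρ κ M R d : ℝ}

namespace Sys

variable (h : Sys X Y u σ ρ κ M R d)
include h

lemma uu : ⟪u, u⟫ = (1 : ℝ) := by
  rw [real_inner_self_eq_norm_sq, h.unit]; norm_num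

lemma sig' (i : ι) : ⟪u, Y i u⟫ = σ i := by
  rw [← h.adj, real_inner_comm, h.sig]

lemma rowu (i : ι) : ⟪u, X i u - σ i • u⟫ = 0 := by
  rw [inner_sub_right, inner_smul_right, h.sig, h.uu]; ring

lemma colu (i : ι) : ⟪u, Y i u - σ i • u⟫ = 0 := by
  rw [inner_sub_right, inner_smul_right, h.sig', h.uu]; ring

/-- `⟪u, X y⟫ = ⟪c, y⟫` for `y` orthogonal to `u`. -/
lemma uX (i : ι) {y : H} (hy : ⟪u, y⟫ = 0) : ⟪u, X i y⟫ = ⟪Y i u - σ i • u, y⟫ := by
  rw [inner_sub_left, inner_smul_left, hy, real_inner_comm, h.adj, real_inner_comm]; simp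

lemma uY (i : ι) {y : H} (hy : ⟪u, y⟫ = 0) : ⟪u, Y i y⟫ = ⟪X i u - σ i • u, y⟫ := by
  rw [inner_sub_left, inner_smul_left, hy, ← h.adj]; simp

/-- projecting away `u` does not increase the norm -/
lemma proj_le (x : H) : ‖x - ⟪u, x⟫ • u‖ ≤ ‖x‖ := by
  have h1 : ‖x - ⟪u, x⟫ • u‖ ^ 2 = ‖x‖ ^ 2 - ⟪u, x⟫ ^ 2 := by
    rw [norm_sub_sq_real, norm_smul, h.unit, inner_smul_right, real_inner_comm x u]
    rw [mul_one, Real.norm_eq_abs, sq_abs]
    ring
  have h2 : ‖x - ⟪u, x⟫ • u‖ ^ 2 ≤ ‖x‖ ^ 2 := by rw [h1]; nlinarith [sq_nonneg ⟪u, x⟫]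
  exact (sq_le_sq₀ (norm_nonneg _) (norm_nonneg _)).1 h2

/-- The left eigenvector. -/
theorem exists_eig [CompleteSpace H] (a : ι) : ∃ x : H, ⟪u, x⟫ = 0 ∧ ‖x‖ ≤ R ∧
    Y a (u + x) = (σ a + ⟪X a u - σ a • u, x⟫) • (u + x) := by
  set S : Set H := {x | ⟪u, x⟫ = 0 ∧ ‖x‖ ≤ R} with hS
  have hSc : IsClosed S := by
    have h1 : IsClosed {x : H | ⟪u, x⟫ = (0 : ℝ)} :=
      isClosed_eq (continuous_const.inner continuous_id) continuous_const
    have h2 : IsClosed {x : H | ‖x‖ ≤ R} := isClosed_le continuous_norm continuous_const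
    exact h1.inter h2
  have hScompl : IsComplete S := hSc.isComplete
  set al : H → ℝ := fun x => σ a + ⟪X a u - σ a • u, x⟫ with hal
  set p : H → H := fun x => (Y a u - σ a • u) + (Y a x - ⟪u, Y a x⟫ • u) with hp
  set F : H → H := fun x => (al x)⁻¹ • p x with hF
  have hald : ∀ x ∈ S, d ≤ al x := by
    intro x hx
    have h1 : |⟪X a u - σ a • u, x⟫| ≤ ρ * R :=
      (abs_real_inner_le_norm _ _).trans
        (mul_le_mul (h.row a) hx.2 (norm_nonneg _) h.ρ0)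
    have h2 := (abs_le.1 h1).1
    have h3 := h.dσ a
    simp only [hal]
    linarith
  have hpb : ∀ x ∈ S, ‖p x‖ ≤ R * d := by
    intro x hx
    have h1 : ‖Y a x - ⟪u, Y a x⟫ • u‖ ≤ κ * R :=
      (h.proj_le _).trans ((h.opY a x hx.1).trans (mul_le_mul_of_nonneg_left hx.2 h.κ0))
    calc ‖p x‖ ≤ ‖Y a u - σ a • u‖ + ‖Y a x - ⟪u, Y a x⟫ • u‖ := norm_add_le _ _
      _ ≤ ρ + κ * R := add_le_add (h.col a) h1
      _ ≤ R * d := h.ball
  have hFb : ∀ x ∈ S, ‖F x‖ ≤ R := by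
    intro x hx
    have h1 := hald x hx
    have h2 : 0 < al x := lt_of_lt_of_le h.d0 h1
    simp only [hF]
    rw [norm_smul, norm_inv, Real.norm_eq_abs, abs_of_pos h2, inv_mul_le_iff₀ h2]
    calc ‖p x‖ ≤ R * d := hpb x hx
      _ ≤ al x * R := by rw [mul_comm]; exact mul_le_mul_of_nonneg_right h1 h.R0
  have hmaps : Set.MapsTo F S S := by
    intro x hx
    refine ⟨?_, hFb x hx⟩
    simp only [hF, hp]
    rw [inner_smul_right, inner_add_right, h.colu, inner_sub_right, inner_smul_right, h.uu]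
    ring
  have hpl : ∀ x ∈ S, ∀ x' ∈ S, ‖p x - p x'‖ ≤ κ * ‖x - x'‖ := by
    intro x hx x' hx'
    have h1 : p x - p x' = Y a (x - x') - ⟪u, Y a (x - x')⟫ • u := by
      simp only [hp, map_sub, inner_sub_right, sub_smul]
      abel
    rw [h1]
    refine (h.proj_le _).trans (h.opY a _ ?_)
    rw [inner_sub_right, hx.1, hx'.1, sub_zero]
  have hall : ∀ x ∈ S, ∀ x' ∈ S, |al x' - al x| ≤ ρ * ‖x - x'‖ := by
    intro x hx x' hx'
    have h1 : al x' - al x = ⟪X a u - σ a • u, x' - x⟫ := by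
      simp only [hal, inner_sub_right]; ring
    rw [h1]
    refine (abs_real_inner_le_norm _ _).trans ?_
    rw [norm_sub_rev x x']
    exact mul_le_mul_of_nonneg_right (h.row a) (norm_nonneg _)
  have hcontr : ContractingWith (1 / 2) (hmaps.restrict F S S) := by
    refine ⟨by rw [← NNReal.coe_lt_coe]; norm_num, ?_⟩
    refine LipschitzWith.of_dist_le_mul ?_
    rintro ⟨x, hx⟩ ⟨x', hx'⟩
    show dist (F x) (F x') ≤ _ * dist x x'
    rw [dist_eq_norm, dist_eq_norm]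
    have h1 := hald x hx
    have h2 : 0 < al x := lt_of_lt_of_le h.d0 h1
    have h1' := hald x' hx'
    have h2' : 0 < al x' := lt_of_lt_of_le h.d0 h1'
    have h3 : F x - F x' = (al x)⁻¹ • (p x - p x') + ((al x)⁻¹ * (al x' - al x)) • F x' := by
      simp only [hF]
      rw [smul_smul, smul_sub]
      have : (al x)⁻¹ * (al x' - al x) * (al x')⁻¹ = (al x)⁻¹ - (al x')⁻¹ := by
        field_simp
      rw [this, sub_smul]
      abel
    rw [h3]
    have h4 : ‖(al x)⁻¹ • (p x - p x')‖ ≤ d⁻¹ * (κ * ‖x - x'‖) := by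
      rw [norm_smul, norm_inv, Real.norm_eq_abs, abs_of_pos h2]
      exact mul_le_mul (inv_anti₀ h.d0 h1) (hpl x hx x' hx') (norm_nonneg _)
        (inv_nonneg.2 h.d0.le)
    have h5 : ‖((al x)⁻¹ * (al x' - al x)) • F x'‖ ≤ d⁻¹ * (ρ * ‖x - x'‖) * R := by
      rw [norm_smul, norm_mul, norm_inv, Real.norm_eq_abs, abs_of_pos h2, Real.norm_eq_abs]
      refine mul_le_mul ?_ (hFb x' hx') (norm_nonneg _) ?_
      · exact mul_le_mul (inv_anti₀ h.d0 h1) (hall x hx x' hx') (abs_nonneg _)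
          (inv_nonneg.2 h.d0.le)
      · exact mul_nonneg (inv_nonneg.2 h.d0.le) (mul_nonneg h.ρ0 (norm_nonneg _))
    calc ‖(al x)⁻¹ • (p x - p x') + ((al x)⁻¹ * (al x' - al x)) • F x'‖
        ≤ d⁻¹ * (κ * ‖x - x'‖) + d⁻¹ * (ρ * ‖x - x'‖) * R := (norm_add_le _ _).trans (add_le_add h4 h5)
      _ = d⁻¹ * (κ + R * ρ) * ‖x - x'‖ := by ring
      _ ≤ d⁻¹ * (d / 2) * ‖x - x'‖ := by
          apply mul_le_mul_of_nonneg_right _ (norm_nonneg _)
          exact mul_le_mul_of_nonneg_left h.con (inv_nonneg.2 h.d0.le)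
      _ = ((1 / 2 : NNReal) : ℝ) * ‖x - x'‖ := by
          have := h.d0
          push_cast
          field_simp
  have h0 : (0 : H) ∈ S := ⟨inner_zero_right _, by rw [norm_zero]; exact h.R0⟩
  obtain ⟨x, hx, hfix, -⟩ := ContractingWith.exists_fixedPoint' hScompl hmaps hcontr h0
    (edist_ne_top _ _)
  refine ⟨x, hx.1, hx.2, ?_⟩
  have hpos : 0 < al x := lt_of_lt_of_le h.d0 (hald x hx)
  have h1 : F x = x := hfix
  have h2 : p x = al x • x := (inv_smul_eq_iff₀ hpos.ne').1 h1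
  have h3 : Y a (u + x) = p x + al x • u := by
    simp only [hp, map_add, hal]
    rw [h.uY a hx.1, add_smul]
    abel
  rw [h3, h2, smul_add, add_comm]

/-- The invariant cone. -/
def Inv (Y : ι → H →ₗ[ℝ] H) (u : H) (σ : ι → ℝ) (ρ κ M R d : ℝ) (z : H) : Prop :=
  0 < ⟪u, z⟫ ∧ ‖z - ⟪u, z⟫ • u‖ ≤ R * ⟪u, z⟫ ∧
    ∀ j, |⟪Y j u - σ j • u, z - ⟪u, z⟫ • u⟫| ≤ (M + ρ * κ * R) / d * ⟪u, z⟫

lemma inv_init : Inv Y u σ ρ κ M R d u := by
  have h0 : u - ⟪u, u⟫ • u = 0 := by rw [h.uu, one_smul, sub_self]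
  refine ⟨by rw [h.uu]; exact one_pos, ?_, fun j => ?_⟩
  · rw [h0, norm_zero, h.uu, mul_one]; exact h.R0
  · rw [h0, inner_zero_right, abs_zero, h.uu, mul_one]
    exact div_nonneg (add_nonneg h.M0 (mul_nonneg (mul_nonneg h.ρ0 h.κ0) h.R0)) h.d0.le

/-- `z = ⟪u, z⟫ u + y` -/
lemma uy (z : H) : ⟪u, z - ⟪u, z⟫ • u⟫ = (0 : ℝ) := by
  rw [inner_sub_right, inner_smul_right, h.uu]; ring

lemma X_alpha (i : ι) (z : H) : ⟪u, X i z⟫ =
    ⟪u, z⟫ * σ i + ⟪Y i u - σ i • u, z - ⟪u, z⟫ • u⟫ := by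
  have h1 : X i z = ⟪u, z⟫ • X i u + X i (z - ⟪u, z⟫ • u) := by
    rw [map_sub, map_smul]; abel
  rw [h1, inner_add_right, inner_smul_right, h.sig, h.uX i (h.uy z)]

lemma X_y (i : ι) (z : H) : X i z - ⟪u, X i z⟫ • u = ⟪u, z⟫ • (X i u - σ i • u) +
    (X i (z - ⟪u, z⟫ • u) - ⟪u, X i (z - ⟪u, z⟫ • u)⟫ • u) := by
  rw [h.X_alpha i z, h.uX i (h.uy z), add_smul, map_sub, map_smul, smul_sub, mul_smul]
  abel

lemma inv_step (i : ι) {z : H} (hz : Inv Y u σ ρ κ M R d z) : Inv Y u σ ρ κ M R d (X i z) := by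
  obtain ⟨h1, h2, h3⟩ := hz
  set α := ⟪u, z⟫ with hα
  set y := z - α • u with hy
  have hy0 : ⟪u, y⟫ = 0 := h.uy z
  have hcy : |⟪Y i u - σ i • u, y⟫| ≤ ρ * R * α := by
    refine (abs_real_inner_le_norm _ _).trans ?_
    calc ‖Y i u - σ i • u‖ * ‖y‖ ≤ ρ * (R * α) :=
          mul_le_mul (h.col i) h2 (norm_nonneg _) h.ρ0
      _ = ρ * R * α := by ring
  have hnew : d * α ≤ ⟪u, X i z⟫ := by
    rw [h.X_alpha i z]
    have h4 := (abs_le.1 hcy).1
    have h5 := mul_le_mul_of_nonneg_right (h.dσ i) h1.le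
    linarith
  have hnew0 : 0 < ⟪u, X i z⟫ := lt_of_lt_of_le (mul_pos h.d0 h1) hnew
  have hXy : ‖X i y‖ ≤ κ * (R * α) :=
    (h.opX i y hy0).trans (mul_le_mul_of_nonneg_left h2 h.κ0)
  refine ⟨hnew0, ?_, fun j => ?_⟩
  · rw [h.X_y i z]
    calc ‖α • (X i u - σ i • u) + (X i y - ⟪u, X i y⟫ • u)‖
        ≤ ‖α • (X i u - σ i • u)‖ + ‖X i y - ⟪u, X i y⟫ • u‖ := norm_add_le _ _
      _ ≤ α * ρ + κ * (R * α) := by
          refine add_le_add ?_ ((h.proj_le _).trans hXy)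
          rw [norm_smul, Real.norm_eq_abs, abs_of_pos h1]
          exact mul_le_mul_of_nonneg_left (h.row i) h1.le
      _ = (ρ + κ * R) * α := by ring
      _ ≤ (R * d) * α := mul_le_mul_of_nonneg_right h.ball h1.le
      _ = R * (d * α) := by ring
      _ ≤ R * ⟪u, X i z⟫ := mul_le_mul_of_nonneg_left hnew h.R0
  · rw [h.X_y i z, inner_add_right, inner_smul_right]
    have h6 : ⟪Y j u - σ j • u, X i y - ⟪u, X i y⟫ • u⟫ = ⟪Y j u - σ j • u, X i y⟫ := by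
      rw [inner_sub_right, inner_smul_right, real_inner_comm u, h.colu j]; ring
    rw [h6]
    have h7 : |α * ⟪Y j u - σ j • u, X i u - σ i • u⟫| ≤ α * M := by
      rw [abs_mul, abs_of_pos h1]
      exact mul_le_mul_of_nonneg_left (h.cr j i) h1.le
    have h8 : |⟪Y j u - σ j • u, X i y⟫| ≤ ρ * (κ * (R * α)) :=
      (abs_real_inner_le_norm _ _).trans
        (mul_le_mul (h.col j) hXy (norm_nonneg _) h.ρ0)
    have h9 : 0 ≤ (M + ρ * κ * R) / d :=
      div_nonneg (add_nonneg h.M0 (mul_nonneg (mul_nonneg h.ρ0 h.κ0) h.R0)) h.d0.le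
    calc |α * ⟪Y j u - σ j • u, X i u - σ i • u⟫ + ⟪Y j u - σ j • u, X i y⟫|
        ≤ α * M + ρ * (κ * (R * α)) := (abs_add_le _ _).trans (add_le_add h7 h8)
      _ = (M + ρ * κ * R) / d * (d * α) := by
          have := h.d0.ne'
          field_simp
      _ ≤ (M + ρ * κ * R) / d * ⟪u, X i z⟫ := mul_le_mul_of_nonneg_left hnew h9

/-- The main inequality. -/
lemma growth {a : ι} {x : H} (hx0 : ⟪u, x⟫ = 0) (hxR : ‖x‖ ≤ R)
    (hx : Y a (u + x) = (σ a + ⟪X a u - σ a • u, x⟫) • (u + x)) (i : ι)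
    (hgap : i ≠ a → 4 * ((M + R * κ * ρ) / d) + 2 * (κ * R ^ 2) ≤ σ a - σ i) {z : H}
    (hz : Inv Y u σ ρ κ M R d z) :
    ⟪u + x, X i z⟫ ≤ (σ a + ⟪X a u - σ a • u, x⟫) * ⟪u + x, z⟫ := by
  set lam := σ a + ⟪X a u - σ a • u, x⟫ with hlam
  have hA : ∀ z, ⟪u + x, X a z⟫ = lam * ⟪u + x, z⟫ := by
    intro z
    rw [real_inner_comm, h.adj, hx, inner_smul_right, real_inner_comm]
  by_cases hia : i = a
  · rw [hia, hA]
  have hg := hgap hia
  obtain ⟨h1, h2, h3⟩ := hz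
  set α := ⟪u, z⟫ with hα
  set y := z - α • u with hy
  have hy0 : ⟪u, y⟫ = 0 := h.uy z
  -- lam is at least d
  have hld : d ≤ lam := by
    have h4 : |⟪X a u - σ a • u, x⟫| ≤ ρ * R :=
      (abs_real_inner_le_norm _ _).trans (mul_le_mul (h.row a) hxR (norm_nonneg _) h.ρ0)
    have h5 := (abs_le.1 h4).1
    have h6 := h.dσ a
    rw [hlam]; linarith
  have hl0 : 0 < lam := lt_of_lt_of_le h.d0 hld
  -- inner products of x with rows
  have hxr : ∀ j, |⟪x, X j u - σ j • u⟫| ≤ (M + R * κ * ρ) / d := by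
    intro j
    have h4 : lam * ⟪x, X j u - σ j • u⟫ =
        ⟪Y a u - σ a • u, X j u - σ j • u⟫ + ⟪x, X a (X j u - σ j • u)⟫ := by
      have h5 := hA (X j u - σ j • u)
      rw [inner_add_left, inner_add_left, h.uX a (h.rowu j), h.rowu j, zero_add] at h5
      linarith
    have h6 : |⟪x, X a (X j u - σ j • u)⟫| ≤ R * (κ * ρ) := by
      refine (abs_real_inner_le_norm _ _).trans ?_
      refine mul_le_mul hxR ?_ (norm_nonneg _) h.R0
      exact (h.opX a _ (h.rowu j)).trans (mul_le_mul_of_nonneg_left (h.row j) h.κ0)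
    have h7 : lam * |⟪x, X j u - σ j • u⟫| ≤ M + R * κ * ρ := by
      have h7' : lam * |⟪x, X j u - σ j • u⟫| = |lam * ⟪x, X j u - σ j • u⟫| := by
        rw [abs_mul, abs_of_pos hl0]
      rw [h7', h4]
      calc |⟪Y a u - σ a • u, X j u - σ j • u⟫ + ⟪x, X a (X j u - σ j • u)⟫|
          ≤ M + R * (κ * ρ) := (abs_add_le _ _).trans (add_le_add (h.cr a j) h6)
        _ = M + R * κ * ρ := by ring
    rw [le_div_iff₀ h.d0]
    calc |⟪x, X j u - σ j • u⟫| * d ≤ |⟪x, X j u - σ j • u⟫| * lam :=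
          mul_le_mul_of_nonneg_left hld (abs_nonneg _)
      _ = lam * |⟪x, X j u - σ j • u⟫| := by ring
      _ ≤ _ := h7
  have hxX : ∀ j, |⟪x, X j y⟫| ≤ κ * R ^ 2 * α := by
    intro j
    refine (abs_real_inner_le_norm _ _).trans ?_
    calc ‖x‖ * ‖X j y‖ ≤ R * (κ * (R * α)) := by
          refine mul_le_mul hxR ?_ (norm_nonneg _) h.R0
          exact (h.opX j y hy0).trans (mul_le_mul_of_nonneg_left h2 h.κ0)
      _ = κ * R ^ 2 * α := by ring
  -- expansions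
  have hexp : ∀ j, ⟪u + x, X j z⟫ = α * σ j + ⟪Y j u - σ j • u, y⟫ +
      (α * ⟪x, X j u - σ j • u⟫ + ⟪x, X j y⟫) := by
    intro j
    rw [inner_add_left, h.X_alpha j z]
    have h8 : X j z = α • (X j u - σ j • u) + (α * σ j) • u + X j y := by
      rw [hy, map_sub, map_smul, smul_sub, mul_smul]; abel
    have h9 : ⟪x, X j z⟫ = α * ⟪x, X j u - σ j • u⟫ + ⟪x, X j y⟫ := by
      rw [h8, inner_add_right, inner_add_right, inner_smul_right, inner_smul_right,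
        real_inner_comm u x, hx0]
      ring
    rw [h9]
  rw [← hA z, hexp i, hexp a]
  have hca := (abs_le.1 (h3 a)).1
  have hci := (abs_le.1 (h3 i)).2
  have hra := (abs_le.1 (hxr a)).1
  have hri := (abs_le.1 (hxr i)).2
  have hXa := (abs_le.1 (hxX a)).1
  have hXi := (abs_le.1 (hxX i)).2
  have e1 : (M + ρ * κ * R) / d = (M + R * κ * ρ) / d := by ring_nf
  rw [e1] at hca hci
  have hra' := mul_le_mul_of_nonneg_left hra h1.le
  have hri' := mul_le_mul_of_nonneg_left hri h1.le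
  have hg' := mul_le_mul_of_nonneg_left hg h1.le
  nlinarith

/-- Growth of all products. -/
theorem growth_words {a : ι} {x : H} (hx0 : ⟪u, x⟫ = 0) (hxR : ‖x‖ ≤ R)
    (hx : Y a (u + x) = (σ a + ⟪X a u - σ a • u, x⟫) • (u + x))
    (hgap : ∀ i, i ≠ a → 4 * ((M + R * κ * ρ) / d) + 2 * (κ * R ^ 2) ≤ σ a - σ i)
    (l : List ι) :
    ‖l.foldr (fun i z => X i z) u‖ ≤ 2 * (σ a + ⟪X a u - σ a • u, x⟫) ^ l.length := by
  set lam := σ a + ⟪X a u - σ a • u, x⟫ with hlam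
  have hl0 : 0 ≤ lam := by
    have h4 : |⟪X a u - σ a • u, x⟫| ≤ ρ * R :=
      (abs_real_inner_le_norm _ _).trans (mul_le_mul (h.row a) hxR (norm_nonneg _) h.ρ0)
    have h5 := (abs_le.1 h4).1
    have h6 := h.dσ a
    have h7 := h.d0
    rw [hlam]; linarith
  have key : Inv Y u σ ρ κ M R d (l.foldr (fun i z => X i z) u) ∧
      ⟪u + x, l.foldr (fun i z => X i z) u⟫ ≤ lam ^ l.length := by
    induction l with
    | nil =>
      refine ⟨h.inv_init, ?_⟩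
      simp only [List.foldr_nil, List.length_nil, pow_zero]
      rw [inner_add_left, h.uu, real_inner_comm, hx0, add_zero]
    | cons i l ih =>
      simp only [List.foldr_cons, List.length_cons]
      refine ⟨h.inv_step i ih.1, ?_⟩
      refine (h.growth hx0 hxR hx i (hgap i) ih.1).trans ?_
      rw [pow_succ, mul_comm (lam ^ l.length)]
      exact mul_le_mul_of_nonneg_left ih.2 hl0
  obtain ⟨⟨h1, h2, -⟩, h3⟩ := key
  set z := l.foldr (fun i z => X i z) u with hz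
  set α := ⟪u, z⟫ with hα
  have h4 : ⟪u + x, z⟫ = α + ⟪x, z - α • u⟫ := by
    rw [inner_add_left, inner_sub_right, inner_smul_right, real_inner_comm u x, hx0]
    ring
  have h5 : |⟪x, z - α • u⟫| ≤ R * (R * α) :=
    (abs_real_inner_le_norm _ _).trans (mul_le_mul hxR h2 (norm_nonneg _) h.R0)
  have h6 : ‖z‖ ≤ α + R * α := by
    have h7 : z = α • u + (z - α • u) := by abel
    calc ‖z‖ = ‖α • u + (z - α • u)‖ := by rw [← h7]
      _ ≤ ‖α • u‖ + ‖z - α • u‖ := norm_add_le _ _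
      _ ≤ α + R * α := by
          rw [norm_smul, h.unit, Real.norm_eq_abs, abs_of_pos h1, mul_one]
          linarith
  have h8 := (abs_le.1 h5).1
  rw [h4] at h3
  have hR := h.R1
  have hR0 := h.R0
  have h9 : R * α ≤ 1 / 2 * α := mul_le_mul_of_nonneg_right hR h1.le
  have h10 : R * (R * α) ≤ 1 / 2 * (1 / 2 * α) :=
    mul_le_mul hR h9 (mul_nonneg hR0 h1.le) (by norm_num)
  linarith

end Sys

end Pool.Agent.BinPair
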