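import Mathlib

set_option autoImplicit false

/-!
# Spectral radii of products of nonnegative matrices
-/

namespace Pool.Agent.BinPair

open Matrix

variable {n : ℕ}

/-- The complex matrix given by a real one. -/
def toC (B : Matrix (Fin n) (Fin n) ℝ) : Matrix (Fin n) (Fin n) ℂ := B.map fun x => (x : ℂ)

lemma toC_mul (B C : Matrix (Fin n) (Fin n) ℝ) : toC (B * C) = toC B * toC C := by
  ext a b
  simp [toC, Matrix.mul_apply]

lemma toC_one : toC (1 : Matrix (Fin n) (Fin n) ℝ) = 1 := by
  ext a b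
  by_cases h : a = b
  · subst h; simp [toC]
  · simp [toC, h]

lemma toC_pow (B : Matrix (Fin n) (Fin n) ℝ) (k : ℕ) : toC (B ^ k) = toC B ^ k := by
  induction k with
  | zero => simp [toC_one]
  | succ k ih => rw [pow_succ, pow_succ, toC_mul, ih]

lemma toC_prod (l : List (Matrix (Fin n) (Fin n) ℝ)) : toC l.prod = (l.map toC).prod := by
  induction l with
  | nil => simp [toC_one]
  | cons B l ih => rw [List.prod_cons, toC_mul, ih, List.map_cons, List.prod_cons]

/-- products of nonnegative matrices are nonnegative -/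
lemma prod_nonneg {q : ℕ} (B : Fin q → Matrix (Fin n) (Fin n) ℝ) (hB : ∀ i a b, 0 ≤ B i a b)
    (l : List (Fin q)) (a b : Fin n) : 0 ≤ (l.map B).prod a b := by
  induction l generalizing a b with
  | nil =>
    simp only [List.map_nil, List.prod_nil, Matrix.one_apply]
    split_ifs <;> norm_num
  | cons i l ih =>
    rw [List.map_cons, List.prod_cons, Matrix.mul_apply]
    exact Finset.sum_nonneg fun c _ => mul_nonneg (hB _ _ _) (ih _ _)

lemma foldr_eq {q : ℕ} (B : Fin q → Matrix (Fin n) (Fin n) ℝ) (x : Fin n → ℝ)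
    (l : List (Fin q)) : l.foldr (fun i z => B i *ᵥ z) x = (l.map B).prod *ᵥ x := by
  induction l with
  | nil => simp
  | cons i l ih => rw [List.foldr_cons, ih, List.map_cons, List.prod_cons, Matrix.mulVec_mulVec]

/-- comparison of powers -/
lemma le_of_pow_le {a b K : ℝ} (hb : 0 ≤ b)
    (h : ∀ k : ℕ, 1 ≤ k → a ^ k ≤ K * b ^ k) : a ≤ b := by
  by_contra hab
  push Not at hab
  rcases hb.eq_or_lt with hb0 | hb0
  · have := h 1 le_rfl
    rw [← hb0] at this
    simp only [pow_one, mul_zero] at this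
    linarith
  · have h1 : 1 < a / b := by rwa [one_lt_div hb0]
    obtain ⟨k, hk⟩ := pow_unbounded_of_one_lt (max K 1) h1
    have hk1 : 1 ≤ k := by
      rcases Nat.eq_zero_or_pos k with h0 | h0
      · subst h0
        have := (le_max_right K 1).trans_lt hk
        simp at this
      · exact h0
    have h2 := h k hk1
    have h3 : K < (a / b) ^ k := (le_max_left _ _).trans_lt hk
    rw [div_pow, lt_div_iff₀ (by positivity)] at h3
    linarith

/-- the list repeated `k` times -/
lemma flatten_prod {q : ℕ} (B : Fin q → Matrix (Fin n) (Fin n) ℝ) (l : List (Fin q)) (k : ℕ) :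
    (((List.replicate k l).flatten).map B).prod = (l.map B).prod ^ k ∧
      ((List.replicate k l).flatten).length = l.length * k := by
  induction k with
  | zero => simp
  | succ k ih =>
    rw [List.replicate_succ, List.flatten_cons, List.map_append, List.prod_append, ih.1,
      List.length_append, ih.2, pow_succ']
    exact ⟨rfl, by ring⟩

/-- A bound for the growth of the row sums bounds all spectral radii. -/
theorem spec_le {q : ℕ} (B : Fin q → Matrix (Fin n) (Fin n) ℝ) (hB : ∀ i a b, 0 ≤ B i a b)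
    (lam K : ℝ) (hl : 0 ≤ lam)
    (hK : ∀ (l : List (Fin q)) (a : Fin n),
      ((l.map B).prod *ᵥ (fun _ => 1)) a ≤ K * lam ^ l.length)
    (l : List (Fin q)) :
    spectralRadius ℂ (l.map fun i => toC (B i)).prod ≤ ENNReal.ofReal lam ^ l.length := by
  let _ : NormedRing (Matrix (Fin n) (Fin n) ℂ) := Matrix.linftyOpNormedRing
  let _ : NormedAlgebra ℂ (Matrix (Fin n) (Fin n) ℂ) := Matrix.linftyOpNormedAlgebra
  have _ : CompleteSpace (Matrix (Fin n) (Fin n) ℂ) := FiniteDimensional.complete ℂ _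
  have e1 : (l.map fun i => toC (B i)).prod = toC (l.map B).prod := by
    rw [toC_prod, List.map_map]; rfl
  rw [e1]
  set P := (l.map B).prod with hP
  have hnorm : ∀ k : ℕ, ‖toC P ^ k‖ ≤ |K| * (lam ^ l.length) ^ k := by
    intro k
    obtain ⟨h1, h2⟩ := flatten_prod B l k
    have h3 : ∀ a, (P ^ k *ᵥ (fun _ => 1)) a ≤ |K| * (lam ^ l.length) ^ k := by
      intro a
      rw [hP, ← h1]
      refine (hK _ a).trans ?_
      rw [h2, pow_mul]
      exact mul_le_mul_of_nonneg_right (le_abs_self K) (by positivity)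
    have h4 : ∀ a b, 0 ≤ (P ^ k) a b := by
      intro a b
      rw [hP, ← h1]
      exact prod_nonneg B hB _ a b
    have h5 : ∀ a, ∑ b, ‖(toC P ^ k) a b‖ ≤ |K| * (lam ^ l.length) ^ k := by
      intro a
      refine le_trans (le_of_eq ?_) (h3 a)
      rw [← toC_pow, Matrix.mulVec, dotProduct]
      refine Finset.sum_congr rfl fun b _ => ?_
      rw [mul_one]
      simp only [toC, Matrix.map_apply, Complex.norm_real, Real.norm_eq_abs]
      exact abs_of_nonneg (h4 a b)
    have h6 : 0 ≤ |K| * (lam ^ l.length) ^ k := by positivity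
    rw [Matrix.linfty_opNorm_def]
    have h7 : (Finset.univ.sup fun a => ∑ b, ‖(toC P ^ k) a b‖₊) ≤
        (⟨|K| * (lam ^ l.length) ^ k, h6⟩ : NNReal) := by
      refine Finset.sup_le fun a _ => ?_
      change ((∑ b, ‖(toC P ^ k) a b‖₊ : NNReal) : ℝ) ≤ |K| * (lam ^ l.length) ^ k
      push_cast
      exact h5 a
    exact_mod_cast h7
  have hlam : (0 : ℝ) ≤ lam ^ l.length := by positivity
  rw [spectralRadius]
  refine iSup₂_le fun z hz => ?_
  have hz1 : ‖z‖ ≤ lam ^ l.length := by
    refine le_of_pow_le (K := |K| * ‖(1 : Matrix (Fin n) (Fin n) ℂ)‖) hlam ?_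
    intro k _
    have h1 : z ^ k ∈ spectrum ℂ (toC P ^ k) := spectrum.pow_mem_pow (toC P) k hz
    have h2 := spectrum.norm_le_norm_mul_of_mem h1
    rw [norm_pow] at h2
    calc ‖z‖ ^ k ≤ ‖toC P ^ k‖ * ‖(1 : Matrix (Fin n) (Fin n) ℂ)‖ := h2
      _ ≤ (|K| * (lam ^ l.length) ^ k) * ‖(1 : Matrix (Fin n) (Fin n) ℂ)‖ :=
          mul_le_mul_of_nonneg_right (hnorm k) (norm_nonneg _)
      _ = _ := by ring
  have hz2 : (‖z‖₊ : ENNReal) = ENNReal.ofReal ‖z‖ := by
    rw [← coe_nnnorm, ENNReal.ofReal_coe_nnreal]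
  rw [← ENNReal.ofReal_pow hl, hz2]
  exact ENNReal.ofReal_le_ofReal hz1

/-- An eigenvalue of the transposed matrix is at most the spectral radius. -/
theorem le_spec (B : Matrix (Fin n) (Fin n) ℝ) (lam : ℝ) (hl : 0 ≤ lam) (x : Fin n → ℝ)
    (hx : x ≠ 0) (h : Bᵀ *ᵥ x = lam • x) : ENNReal.ofReal lam ≤ spectralRadius ℂ (toC B) := by
  have h1 : (lam : ℂ) ∈ spectrum ℂ (toC B) := by
    rw [spectrum.mem_iff]
    intro hu
    rw [Matrix.isUnit_iff_isUnit_det, isUnit_iff_ne_zero, ← Matrix.det_transpose] at hu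
    refine hu (Matrix.exists_mulVec_eq_zero_iff.1 ⟨fun a => (x a : ℂ), ?_, ?_⟩)
    · intro h0
      refine hx (funext fun a => ?_)
      have := congrFun h0 a
      simpa using this
    · rw [Matrix.transpose_sub, Matrix.sub_mulVec]
      have h2 : (algebraMap ℂ (Matrix (Fin n) (Fin n) ℂ) (lam : ℂ))ᵀ *ᵥ (fun a => (x a : ℂ)) =
          fun a => (lam : ℂ) * x a := by
        rw [Matrix.algebraMap_eq_diagonal, Matrix.diagonal_transpose]
        funext a
        simp [Matrix.mulVec_diagonal]
      have h3 : (toC B)ᵀ *ᵥ (fun a => (x a : ℂ)) = fun a => (lam : ℂ) * x a := by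
        funext a
        have h4 := congrFun h a
        simp only [Matrix.mulVec, dotProduct, Matrix.transpose_apply, Pi.smul_apply,
          smul_eq_mul] at h4
        simp only [Matrix.mulVec, dotProduct, Matrix.transpose_apply, toC, Matrix.map_apply]
        rw [← Complex.ofReal_mul, ← h4]
        push_cast
        rfl
      rw [h2, h3, sub_self]
  have h2 : (‖(lam : ℂ)‖₊ : ENNReal) ≤ spectralRadius ℂ (toC B) :=
    le_iSup₂ (f := fun (k : ℂ) (_ : k ∈ spectrum ℂ (toC B)) => (‖k‖₊ : ENNReal)) (lam : ℂ) h1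
  refine le_trans (le_of_eq ?_) h2
  rw [ENNReal.ofReal, ENNReal.coe_inj]
  ext
  simp [hl, abs_of_nonneg hl]

end Pool.Agent.BinPair
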