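import Pool.Agent.BinPair.Pert
import Pool.Agent.BinPair.Spec

set_option autoImplicit false

/-!
# From matrices to operators
-/

namespace Pool.Agent.BinPair

open Matrix
open scoped RealInnerProductSpace

variable {n : ℕ}

/-- The operator given by a matrix. -/
def op (A : Matrix (Fin n) (Fin n) ℝ) :
    EuclideanSpace ℝ (Fin n) →ₗ[ℝ] EuclideanSpace ℝ (Fin n) where
  toFun x := WithLp.toLp 2 (A *ᵥ x.ofLp)
  map_add' x y := by
    ext a
    simp [Matrix.mulVec_add]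
  map_smul' c x := by
    ext a
    simp [Matrix.mulVec_smul]

lemma op_apply (A : Matrix (Fin n) (Fin n) ℝ) (x : EuclideanSpace ℝ (Fin n)) (a : Fin n) :
    op A x a = ∑ b, A a b * x b := rfl

lemma inner_eq (x y : EuclideanSpace ℝ (Fin n)) : ⟪x, y⟫ = ∑ a, x a * y a := by
  rw [PiLp.inner_apply]
  exact Finset.sum_congr rfl fun a _ => by simp [mul_comm]

lemma norm_sq_eq (x : EuclideanSpace ℝ (Fin n)) : ‖x‖ ^ 2 = ∑ a, x a ^ 2 := by
  rw [← real_inner_self_eq_norm_sq, inner_eq]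
  exact Finset.sum_congr rfl fun a _ => by ring

lemma op_adj (A : Matrix (Fin n) (Fin n) ℝ) (x y : EuclideanSpace ℝ (Fin n)) :
    ⟪op A x, y⟫ = ⟪x, op Aᵀ y⟫ := by
  rw [inner_eq, inner_eq]
  simp only [op_apply, Matrix.transpose_apply, Finset.sum_mul, Finset.mul_sum]
  rw [Finset.sum_comm]
  exact Finset.sum_congr rfl fun a _ => Finset.sum_congr rfl fun b _ => by ring

/-- The Frobenius norm of `A Aᵀ` bounds the operator norm. -/
lemma op_transpose_le (A : Matrix (Fin n) (Fin n) ℝ) (K : ℝ) (hK : 0 ≤ K)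
    (h : ∑ a, ∑ a', (∑ j, A a j * A a' j) ^ 2 ≤ K ^ 4) (x : EuclideanSpace ℝ (Fin n)) :
    ‖op Aᵀ x‖ ≤ K * ‖x‖ := by
  have h1 : ‖op Aᵀ x‖ ^ 2 = ∑ a, ∑ a', (∑ j, A a j * A a' j) * (x a * x a') := by
    calc ‖op Aᵀ x‖ ^ 2 = ∑ j, (∑ a, A a j * x a) * (∑ a', A a' j * x a') := by
          rw [norm_sq_eq]
          exact Finset.sum_congr rfl fun j _ => by
            rw [op_apply, sq]; simp only [Matrix.transpose_apply]
      _ = ∑ j, ∑ a, ∑ a', (A a j * x a) * (A a' j * x a') :=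
          Finset.sum_congr rfl fun j _ => by rw [Finset.sum_mul_sum]
      _ = ∑ a, ∑ j, ∑ a', (A a j * x a) * (A a' j * x a') := Finset.sum_comm
      _ = ∑ a, ∑ a', ∑ j, (A a j * x a) * (A a' j * x a') :=
          Finset.sum_congr rfl fun a _ => Finset.sum_comm
      _ = ∑ a, ∑ a', (∑ j, A a j * A a' j) * (x a * x a') :=
          Finset.sum_congr rfl fun a _ => Finset.sum_congr rfl fun a' _ => by
            rw [Finset.sum_mul]
            exact Finset.sum_congr rfl fun j _ => by ring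
  have h2 : (‖op Aᵀ x‖ ^ 2) ^ 2 ≤ K ^ 4 * (‖x‖ ^ 2) ^ 2 := by
    have h3 := Finset.sum_mul_sq_le_sq_mul_sq (Finset.univ : Finset (Fin n × Fin n))
      (fun p => ∑ j, A p.1 j * A p.2 j) (fun p => x p.1 * x p.2)
    rw [Fintype.sum_prod_type, Fintype.sum_prod_type, Fintype.sum_prod_type] at h3
    simp only at h3
    have h4 : ∑ a, ∑ a', (x a * x a') ^ 2 = (‖x‖ ^ 2) ^ 2 := by
      rw [norm_sq_eq, sq (∑ a, x a ^ 2), Finset.sum_mul_sum]
      exact Finset.sum_congr rfl fun a _ => Finset.sum_congr rfl fun a' _ => by ring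
    rw [h1]
    rw [h4] at h3
    exact h3.trans (mul_le_mul_of_nonneg_right h (by positivity))
  have h5 : ‖op Aᵀ x‖ ^ 4 ≤ (K * ‖x‖) ^ 4 := by
    calc ‖op Aᵀ x‖ ^ 4 = (‖op Aᵀ x‖ ^ 2) ^ 2 := by ring
      _ ≤ K ^ 4 * (‖x‖ ^ 2) ^ 2 := h2
      _ = (K * ‖x‖) ^ 4 := by ring
  exact (pow_le_pow_iff_left₀ (norm_nonneg _) (by positivity) (by norm_num)).1 h5

lemma op_le (A : Matrix (Fin n) (Fin n) ℝ) (K : ℝ) (hK : 0 ≤ K)
    (h : ∑ a, ∑ a', (∑ j, A a j * A a' j) ^ 2 ≤ K ^ 4) (x : EuclideanSpace ℝ (Fin n)) :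
    ‖op A x‖ ≤ K * ‖x‖ := by
  have h1 : ‖op A x‖ ^ 2 ≤ ‖x‖ * (K * ‖op A x‖) := by
    rw [← real_inner_self_eq_norm_sq, op_adj]
    exact (real_inner_le_norm _ _).trans
      (mul_le_mul_of_nonneg_left (op_transpose_le A K hK h _) (norm_nonneg _))
  rcases (norm_nonneg (op A x)).eq_or_lt with h0 | h0
  · rw [← h0]; positivity
  · have h2 : ‖op A x‖ * ‖op A x‖ ≤ (K * ‖x‖) * ‖op A x‖ := by nlinarith
    exact le_of_mul_le_mul_right h2 h0

/-- The constant unit vector. -/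
noncomputable def uvec (n : ℕ) (w : ℝ) : EuclideanSpace ℝ (Fin n) := WithLp.toLp 2 fun _ => 1 / w ^ 14

lemma uvec_apply (w : ℝ) (a : Fin n) : uvec n w a = 1 / w ^ 14 := rfl

lemma op_uvec (A : Matrix (Fin n) (Fin n) ℝ) (w : ℝ) (a : Fin n) :
    op A (uvec n w) a = (∑ b, A a b) / w ^ 14 := by
  rw [op_apply, Finset.sum_div]
  exact Finset.sum_congr rfl fun b _ => by rw [uvec_apply]; ring

lemma inner_uvec (w : ℝ) (x : EuclideanSpace ℝ (Fin n)) :
    ⟪uvec n w, x⟫ = (∑ b, x b) / w ^ 14 := by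
  rw [inner_eq, Finset.sum_div]
  exact Finset.sum_congr rfl fun b _ => by rw [uvec_apply]; ring

theorem mat_main {q : ℕ} (S B : Fin q → Matrix (Fin n) (Fin n) ℝ) (w : ℝ) (hw : 2 ≤ w)
    (hn : w ^ 28 = n) (hB : ∀ i a b, B i a b = 1 / 2 + S i a b / 2) (hB0 : ∀ i a b, 0 ≤ B i a b)
    (g1 : ∀ i, ∑ a, ∑ a', (∑ j, S i a j * S i a' j) ^ 2 ≤ w ^ 88)
    (g2 : ∀ i, (∑ a, (∑ b, S i a b) ^ 2) ^ 2 ≤ w ^ 116)
    (g2' : ∀ i, (∑ b, (∑ a, S i a b) ^ 2) ^ 2 ≤ w ^ 116)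
    (g3 : ∀ i j, (∑ b, (∑ a, S i a b) * (∑ c, S j b c)) ^ 2 ≤ w ^ 88)
    (g4 : ∀ i, ((∑ a, ∑ b, S i a b) ^ 2) ^ 2 ≤ w ^ 116)
    (a : Fin q)
    (g5 : ∀ i, i ≠ a → 80 * w ^ 24 ≤ (∑ c, ∑ b, S a c b) - (∑ c, ∑ b, S i c b)) :
    ∃ lam : ℝ, 0 ≤ lam ∧ spectralRadius ℂ (toC (B a)) = ENNReal.ofReal lam ∧
      (∀ l : List (Fin q),
        spectralRadius ℂ (l.map fun i => toC (B i)).prod ≤ ENNReal.ofReal lam ^ l.length) ∧
      ∀ (l : List (Fin q)) (c : Fin n),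
        ((l.map B).prod *ᵥ (fun _ => 1)) c ≤ 2 * w ^ 14 * lam ^ l.length := by
  have hw0 : 0 < w := by linarith
  set u := uvec n w with hu
  have hJ : ∀ (A : Matrix (Fin n) (Fin n) ℝ) (C : Matrix (Fin n) (Fin n) ℝ)
      (_ : ∀ a b, C a b = 1 / 2 + A a b / 2) (y : EuclideanSpace ℝ (Fin n)),
      op C y = (w ^ 28 / 2 * ⟪u, y⟫) • u + (1 / 2 : ℝ) • op A y := by
    intro A C hC y
    ext c
    rw [hu, inner_uvec, PiLp.add_apply, PiLp.smul_apply, PiLp.smul_apply, op_apply, op_apply,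
      uvec_apply, smul_eq_mul, smul_eq_mul, Finset.mul_sum]
    have h1 : w ^ 28 / 2 * ((∑ b, y b) / w ^ 14) * (1 / w ^ 14) = (∑ b, y b) / 2 := by
      field_simp
    rw [h1, Finset.sum_div, ← Finset.sum_add_distrib]
    exact Finset.sum_congr rfl fun b _ => by rw [hC]; ring
  have hunit : ‖u‖ = 1 := by
    have h1 : ‖u‖ ^ 2 = 1 := by
      rw [norm_sq_eq, hu]
      simp only [uvec_apply, Finset.sum_const, Finset.card_univ, Fintype.card_fin,
        nsmul_eq_mul]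
      rw [← hn]; field_simp
    have h2 := norm_nonneg u
    nlinarith
  have e88 : (w ^ 22) ^ 4 = w ^ 88 := by ring
  have hrow : ∀ A : Matrix (Fin n) (Fin n) ℝ, (∑ a, (∑ b, A a b) ^ 2) ^ 2 ≤ w ^ 116 →
      ‖op A u‖ ≤ w ^ 15 := by
    intro A hA
    have h1 : ‖op A u‖ ^ 2 = (∑ a, (∑ b, A a b) ^ 2) / w ^ 28 := by
      rw [norm_sq_eq, Finset.sum_div]
      exact Finset.sum_congr rfl fun c _ => by rw [hu, op_uvec]; ring
    have h2 : (∑ a, (∑ b, A a b) ^ 2) ≤ w ^ 58 := by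
      refine abs_le_of_sq_le_sq' (a := ∑ a, (∑ b, A a b) ^ 2) ?_ (by positivity) |>.2
      calc _ ≤ w ^ 116 := hA
        _ = (w ^ 58) ^ 2 := by ring
    have h3 : ‖op A u‖ ^ 2 ≤ (w ^ 15) ^ 2 := by
      rw [h1, div_le_iff₀ (by positivity)]
      calc _ ≤ w ^ 58 := h2
        _ = (w ^ 15) ^ 2 * w ^ 28 := by ring
    exact (sq_le_sq₀ (norm_nonneg _) (by positivity)).1 h3
  have hcr : ∀ i j, |⟪op (S i)ᵀ u, op (S j) u⟫| ≤ w ^ 16 := by
    intro i j
    have h1 : ⟪op (S i)ᵀ u, op (S j) u⟫ = (∑ b, (∑ a, S i a b) * (∑ c, S j b c)) / w ^ 28 := by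
      rw [inner_eq, Finset.sum_div]
      refine Finset.sum_congr rfl fun c _ => ?_
      rw [hu, op_uvec, op_uvec]
      simp only [Matrix.transpose_apply]
      ring
    have h2 : |∑ b, (∑ a, S i a b) * (∑ c, S j b c)| ≤ w ^ 44 := by
      refine abs_le_of_sq_le_sq ?_ (by positivity)
      calc _ ≤ w ^ 88 := g3 i j
        _ = (w ^ 44) ^ 2 := by ring
    rw [h1, abs_div, abs_of_pos (by positivity : (0 : ℝ) < w ^ 28), div_le_iff₀ (by positivity)]
    calc _ ≤ w ^ 44 := h2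
      _ = w ^ 16 * w ^ 28 := by ring
  have hsi : ∀ i, ⟪u, op (S i) u⟫ = (∑ a, ∑ b, S i a b) / w ^ 28 := by
    intro i
    rw [hu, inner_uvec, Finset.sum_div, Finset.sum_div]
    refine Finset.sum_congr rfl fun c _ => ?_
    rw [op_uvec, div_div]
    congr 1
    ring
  have hs : ∀ i, |⟪u, op (S i) u⟫| ≤ w := by
    intro i
    have h1 : (∑ a, ∑ b, S i a b) ^ 2 ≤ (w ^ 29) ^ 2 := by
      refine (abs_le_of_sq_le_sq' (a := (∑ a, ∑ b, S i a b) ^ 2) ?_ (by positivity)).2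
      calc _ ≤ w ^ 116 := g4 i
        _ = ((w ^ 29) ^ 2) ^ 2 := by ring
    have h2 : |∑ a, ∑ b, S i a b| ≤ w ^ 29 := abs_le_of_sq_le_sq h1 (by positivity)
    rw [hsi, abs_div, abs_of_pos (by positivity : (0 : ℝ) < w ^ 28), div_le_iff₀ (by positivity)]
    calc _ ≤ w ^ 29 := h2
      _ = w * w ^ 28 := by ring
  have hsys := sys_of_pert (fun i => op (B i)) (fun i => op (B i)ᵀ) (fun i => op (S i))
    (fun i => op (S i)ᵀ) u w hw hunit (fun i y => hJ (S i) (B i) (hB i) y)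
    (fun i y => hJ (S i)ᵀ (B i)ᵀ (fun a b => by
      rw [Matrix.transpose_apply, Matrix.transpose_apply, hB]) y)
    (fun i x y => op_adj _ _ _)
    (fun i y => op_le _ _ (by positivity) (e88 ▸ g1 i) y)
    (fun i y => op_transpose_le _ _ (by positivity) (e88 ▸ g1 i) y)
    (fun i => hrow _ (g2 i)) (fun i => hrow _ (g2' i)) hcr hs
  obtain ⟨x, hx0, hxR, hx⟩ := hsys.exists_eig a
  set lam := (w ^ 28 / 2 + ⟪u, op (S a) u⟫ / 2) +
    ⟪op (B a) u - (w ^ 28 / 2 + ⟪u, op (S a) u⟫ / 2) • u, x⟫ with hlam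
  have hgap : ∀ i, i ≠ a →
      4 * ((w ^ 16 / 2 + 4 / w ^ 13 * (w ^ 22 / 2) * (w ^ 15 / 2)) / (w ^ 28 / 4)) +
      2 * (w ^ 22 / 2 * (4 / w ^ 13) ^ 2) ≤
      (w ^ 28 / 2 + ⟪u, op (S a) u⟫ / 2) - (w ^ 28 / 2 + ⟪u, op (S i) u⟫ / 2) := by
    intro i hi
    refine (gap_le w hw).trans ?_
    rw [hsi, hsi]
    have h1 := g5 i hi
    have h2 : 40 / w ^ 4 = 80 * w ^ 24 / w ^ 28 / 2 := by field_simp; ring
    rw [h2]
    have h3 : 80 * w ^ 24 / w ^ 28 ≤
        ((∑ c, ∑ b, S a c b) - (∑ c, ∑ b, S i c b)) / w ^ 28 :=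
      div_le_div_of_nonneg_right h1 (by positivity)
    rw [sub_div] at h3
    linarith
  have hgrow := hsys.growth_words hx0 hxR hx hgap
  -- lam is nonnegative
  have hlam0 : 0 ≤ lam := by
    have h4 := hgrow [a]
    simp only [List.foldr_cons, List.foldr_nil, List.length_singleton, pow_one] at h4
    have := norm_nonneg (op (B a) u)
    linarith
  have hrows : ∀ (l : List (Fin q)) (c : Fin n),
      ((l.map B).prod *ᵥ (fun _ => 1)) c ≤ 2 * w ^ 14 * lam ^ l.length := by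
    intro l c
    have h1 : ∀ l : List (Fin q), l.foldr (fun i z => op (B i) z) u =
        WithLp.toLp 2 (fun c => ((l.map B).prod *ᵥ (fun _ => 1)) c / w ^ 14) := by
      intro l
      induction l with
      | nil =>
        ext c
        simp [hu, uvec_apply]
      | cons i l ih =>
        rw [List.foldr_cons, ih]
        ext c
        rw [op_apply, List.map_cons, List.prod_cons, ← Matrix.mulVec_mulVec]
        show ∑ b, B i c b * (((l.map B).prod *ᵥ (fun _ => 1)) b / w ^ 14) = _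
        show _ = (∑ b, B i c b * ((l.map B).prod *ᵥ (fun _ => 1)) b) / w ^ 14
        rw [Finset.sum_div]
        exact Finset.sum_congr rfl fun b _ => by ring
    have h2 := hgrow l
    rw [h1] at h2
    have h3 := (PiLp.norm_apply_le (WithLp.toLp 2 (fun c =>
      ((l.map B).prod *ᵥ (fun _ => 1)) c / w ^ 14) : EuclideanSpace ℝ (Fin n)) c).trans h2
    have h4 := (le_abs_self _).trans h3
    rw [div_le_iff₀ (by positivity)] at h4
    linarith
  have hspec := spec_le B hB0 lam (2 * w ^ 14) hlam0 hrows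
  have hlow : ENNReal.ofReal lam ≤ spectralRadius ℂ (toC (B a)) := by
    refine le_spec (B a) lam hlam0 (u + x).ofLp ?_ ?_
    · intro h0
      have h1 : u + x = 0 := by ext c; exact congrFun h0 c
      have h2 : ⟪u, u + x⟫ = (1 : ℝ) := by
        rw [inner_add_right, hsys.uu, hx0, add_zero]
      rw [h1, inner_zero_right] at h2
      exact zero_ne_one h2
    · funext c
      have h1 := congrArg (fun z : EuclideanSpace ℝ (Fin n) => z c) hx
      exact h1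
  refine ⟨lam, hlam0, le_antisymm ?_ hlow, hspec, hrows⟩
  have h1 := hspec [a]
  simpa using h1

end Pool.Agent.BinPair
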