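import Pool.Agent.BinPair.Defs
import Pool.Agent.BinPair.Mat
import Pool.Agent.BinPair.Count

set_option autoImplicit false

/-!
# Almost all finite families of binary matrices have the finiteness property

For `q` binary `n × n` matrices chosen uniformly at random, with probability at least
`1 - 100 q ^ 2 n ^ (-1/7)` the joint spectral radius is attained by one of the matrices, namely by
the matrix with the largest number of ones. In particular asymptotically almost every pair of
binary matrices has the finiteness property.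
-/

namespace Pool.Agent.BinPair

/-- The finiteness property of a family of matrices, in the form of the frozen statement: some
product of length `k ≥ 1` has the maximal normalised spectral radius among all products. -/
def FinitenessProperty {q n : ℕ} (A : Fin q → Matrix (Fin n) (Fin n) ℂ) : Prop :=
  ∃ (k : ℕ) (w : Fin k → Fin q), 0 < k ∧
    ∀ (m : ℕ) (v : Fin m → Fin q), 0 < m →
      spectralRadius ℂ (List.ofFn (fun j => A (v j))).prod ^ k ≤
        spectralRadius ℂ (List.ofFn (fun j => A (w j))).prod ^ m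

open Finset

/-- The translation of a family. -/
def toFam {q n : ℕ} (A : Fin q → Fin n → Fin n → Bool) : Fam q n := fun i p => A i p.1 p.2

lemma toFam_inj {q n : ℕ} : Function.Injective (toFam (q := q) (n := n)) := by
  intro A B h
  funext i a b
  exact congrFun (congrFun h i) (a, b)

lemma ones_eq {q n : ℕ} (A : Fin q → Fin n → Fin n → Bool) (i : Fin q) :
    ones (A i) = trues (toFam A i) := by
  rw [ones, trues, Fintype.card_subtype]
  rfl

lemma sum_S {q n : ℕ} (ω : Fam q n) (i : Fin q) :
    ∑ a, ∑ b, S ω i a b = 2 * (trues (ω i) : ℝ) - (n : ℝ) ^ 2 := by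
  have h1 : ∑ a, ∑ b, S ω i a b = ∑ p : Fin n × Fin n, sg (ω i p) :=
    (Fintype.sum_prod_type fun p : Fin n × Fin n => sg (ω i p)).symm
  have h2 : ∀ p : Fin n × Fin n, sg (ω i p) = 2 * (if ω i p = true then 1 else 0) - 1 := by
    intro p
    cases h : ω i p <;> simp [sg]; norm_num
  rw [h1]
  simp only [h2, sum_sub_distrib, ← mul_sum, sum_boole, sum_const, card_univ,
    Fintype.card_prod, Fintype.card_fin, nsmul_eq_mul]
  rw [trues]
  push_cast
  ring

lemma good_of_not_bad {q n : ℕ} (hq : 1 ≤ q) (w : ℝ) (hw : 2 ≤ w) (hn : w ^ 28 = n) (h : ℕ)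
    (hh : 40 * w ^ 24 ≤ h) (A : Fin q → Fin n → Fin n → Bool) (hA : toFam A ∉ Bad q n w h) :
    AttainedByDensest A := by
  classical
  have hw0 : 0 < w := by linarith
  set ω := toFam A with hω
  have hA' : (∀ i : Fin q,
      ¬ (w ^ 88 < ∑ a, ∑ a', (∑ j, S ω i a j * S ω i a' j) ^ 2) ∧
      ¬ (w ^ 116 < (∑ a, (∑ b, S ω i a b) ^ 2) ^ 2) ∧
      ¬ (w ^ 116 < (∑ b, (∑ a, S ω i a b) ^ 2) ^ 2) ∧
      ¬ (w ^ 116 < ((∑ a, ∑ b, S ω i a b) ^ 2) ^ 2)) ∧
      ∀ p : Fin q × Fin q,
        ¬ (w ^ 88 < (∑ b, (∑ a, S ω p.1 a b) * (∑ c, S ω p.2 b c)) ^ 2) ∧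
        ¬ (p.1 ≠ p.2 ∧
          trues (ω p.1) ≤ trues (ω p.2) + h ∧ trues (ω p.2) ≤ trues (ω p.1) + h) := by
    simp only [Bad, mem_union, mem_biUnion, mem_univ, true_and, mem_filter, not_or,
      not_exists] at hA
    refine ⟨fun i => ?_, fun p => ?_⟩
    · obtain ⟨⟨⟨h1, h2⟩, h3⟩, h4⟩ := hA.1 i
      exact ⟨h1, h2, h3, h4⟩
    · exact hA.2 p
  obtain ⟨hA1, hA2⟩ := hA'
  have : Nonempty (Fin q) := ⟨⟨0, hq⟩⟩
  obtain ⟨i, -, hi⟩ := exists_max_image (univ : Finset (Fin q)) (fun i => trues (ω i))
    univ_nonempty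
  have hgt : ∀ j, j ≠ i → trues (ω j) + h < trues (ω i) := by
    intro j hj
    have h1 := (hA2 (i, j)).2
    have h2 : trues (ω j) ≤ trues (ω i) := hi j (mem_univ _)
    by_contra h3
    push Not at h3
    have h4 : trues (ω j) ≤ trues (ω i) + h := by omega
    exact h1 ⟨Ne.symm hj, h3, h4⟩
  set B : Fin q → Matrix (Fin n) (Fin n) ℝ := fun i => Matrix.of fun a b =>
    if A i a b then 1 else 0 with hB
  have hBm : ∀ i, toC (B i) = mat (A i) := by
    intro i
    ext a b
    simp only [toC, hB, mat, Matrix.map_apply, Matrix.of_apply]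
    split_ifs <;> simp
  have hBS : ∀ i a b, B i a b = 1 / 2 + S ω i a b / 2 := by
    intro i a b
    simp only [hB, Matrix.of_apply, S, sg, hω, toFam]
    split_ifs <;> norm_num
  have hB0 : ∀ i a b, 0 ≤ B i a b := by
    intro i a b
    simp only [hB, Matrix.of_apply]
    split_ifs <;> norm_num
  obtain ⟨lam, hlam0, hlam, hspec, hrows⟩ := mat_main (fun i => Matrix.of (S ω i)) B w hw hn hBS
    hB0
    (fun i => not_lt.1 (hA1 i).1) (fun i => not_lt.1 (hA1 i).2.1)
    (fun i => not_lt.1 (hA1 i).2.2.1) (fun i j => not_lt.1 (hA2 (i, j)).1)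
    (fun i => not_lt.1 (hA1 i).2.2.2) i
    (fun j hj => by
      show 80 * w ^ 24 ≤ (∑ c, ∑ b, S ω i c b) - (∑ c, ∑ b, S ω j c b)
      rw [sum_S, sum_S]
      have h1 : (trues (ω j) : ℝ) + h < trues (ω i) := by exact_mod_cast hgt j hj
      linarith)
  refine ⟨i, fun j hj => ?_, fun m v => ?_⟩
  · rw [ones_eq, ones_eq, ← hω]
    have := hgt j hj
    omega
  · have e1 : (List.ofFn fun j => mat (A (v j))) =
        ((List.ofFn v).map fun i => toC (B i)) := by
      rw [List.map_ofFn]
      congr 1
      funext j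
      simp [hBm]
    have e2 : (List.ofFn v).length = m := List.length_ofFn
    rw [e1, ← hBm, hlam, ENNReal.toReal_ofReal hlam0]
    refine ⟨?_, fun a => ?_⟩
    · have := hspec (List.ofFn v)
      rwa [e2] at this
    · have h1 := hrows (List.ofFn v) a
      rw [e2] at h1
      have e3 : ((List.ofFn v).map fun i => toC (B i)).prod = toC ((List.ofFn v).map B).prod := by
        rw [toC_prod, List.map_map]; rfl
      rw [e3]
      have e4 : √(n : ℝ) = w ^ 14 := by
        rw [← hn]
        have : w ^ 28 = (w ^ 14) ^ 2 := by ring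
        rw [this, Real.sqrt_sq (by positivity)]
      rw [e4]
      refine le_trans (le_of_eq ?_) h1
      rw [Matrix.mulVec, dotProduct]
      refine sum_congr rfl fun b _ => ?_
      rw [mul_one]
      simp only [toC, Matrix.map_apply, Complex.norm_real, Real.norm_eq_abs]
      exact abs_of_nonneg (prod_nonneg B hB0 _ a b)

/-- **Almost all finite families of binary matrices have the finiteness property**, with an
optimal product of length one. -/
theorem main (q n : ℕ) (hq : 1 ≤ q) (hn : 1 ≤ n) :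
    (Nat.card {A : Fin q → Fin n → Fin n → Bool // ¬ AttainedByDensest A} : ℝ) ≤
      100 * (q : ℝ) ^ 2 * (n : ℝ) ^ (-(1 / 7) : ℝ) * 2 ^ (q * n ^ 2) := by
  classical
  have hn0 : (0 : ℝ) < n := by exact_mod_cast hn
  set w : ℝ := (n : ℝ) ^ (1 / 28 : ℝ) with hwdef
  have hw28 : w ^ 28 = n := by
    rw [hwdef, ← Real.rpow_natCast, ← Real.rpow_mul hn0.le]
    norm_num
  have hw1 : 1 ≤ w := Real.one_le_rpow (by exact_mod_cast hn) (by norm_num)
  have hw0 : 0 < w := by linarith
  have hw4 : (n : ℝ) ^ (-(1 / 7) : ℝ) = 1 / w ^ 4 := by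
    have h1 : w ^ 4 = (n : ℝ) ^ (1 / 7 : ℝ) := by
      rw [hwdef, ← Real.rpow_natCast, ← Real.rpow_mul hn0.le]
      norm_num
    rw [h1, Real.rpow_neg hn0.le]
    exact (one_div _).symm
  rw [hw4, Nat.card_eq_fintype_card, Fintype.card_subtype]
  have hq1 : (1 : ℝ) ≤ (q : ℝ) ^ 2 := by
    have : (1 : ℝ) ≤ q := by exact_mod_cast hq
    nlinarith
  have hP : (0 : ℝ) < 2 ^ (q * n ^ 2) := by positivity
  by_cases hw2 : 2 ≤ w
  · set h : ℕ := ⌈40 * w ^ 24⌉₊ with hh
    have h1 : 40 * w ^ 24 ≤ h := Nat.le_ceil _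
    have h2 : (h : ℝ) ≤ 41 * w ^ 24 := by
      have h3 : (h : ℝ) < 40 * w ^ 24 + 1 := Nat.ceil_lt_add_one (by positivity)
      have h4 : (1 : ℝ) ≤ w ^ 24 := one_le_pow₀ hw1
      linarith
    have h3 := card_bad (q := q) (n := n) w hw1 hw28 h h2
    have h4 : (univ.filter fun A : Fin q → Fin n → Fin n → Bool =>
        ¬ AttainedByDensest A).card ≤ (Bad q n w h).card := by
      rw [← card_image_of_injective _ (toFam_inj (q := q) (n := n))]
      refine card_le_card fun ω hω => ?_
      rw [mem_image] at hω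
      obtain ⟨A, hA, rfl⟩ := hω
      by_contra h5
      exact (mem_filter.1 hA).2 (good_of_not_bad hq w hw2 hw28 h h1 A h5)
    calc ((univ.filter fun A : Fin q → Fin n → Fin n → Bool =>
        ¬ AttainedByDensest A).card : ℝ) ≤ (Bad q n w h).card := by exact_mod_cast h4
      _ ≤ 98 * (q : ℝ) ^ 2 / w ^ 4 * 2 ^ (q * n ^ 2) := h3
      _ ≤ 100 * (q : ℝ) ^ 2 * (1 / w ^ 4) * 2 ^ (q * n ^ 2) := by
          refine mul_le_mul_of_nonneg_right ?_ hP.le
          rw [mul_one_div]
          refine div_le_div_of_nonneg_right ?_ (by positivity)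
          nlinarith
  · push Not at hw2
    have h1 : w ^ 4 ≤ 16 := by
      have := pow_le_pow_left₀ hw0.le hw2.le 4
      norm_num at this
      exact this
    have h2 : ((univ.filter fun A : Fin q → Fin n → Fin n → Bool =>
        ¬ AttainedByDensest A).card : ℝ) ≤ 2 ^ (q * n ^ 2) := by
      have h3 := card_le_univ (univ.filter fun A : Fin q → Fin n → Fin n → Bool =>
        ¬ AttainedByDensest A)
      simp only [Fintype.card_fun, Fintype.card_fin, Fintype.card_bool] at h3
      have h4 : ((2 ^ n) ^ n) ^ q = 2 ^ (q * n ^ 2) := by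
        rw [← pow_mul, ← pow_mul]; congr 1; ring
      rw [h4] at h3
      exact_mod_cast h3
    refine h2.trans ?_
    have h5 : 1 ≤ 100 * (q : ℝ) ^ 2 * (1 / w ^ 4) := by
      rw [mul_one_div, one_le_div (by positivity)]
      nlinarith
    calc (2 : ℝ) ^ (q * n ^ 2) = 1 * 2 ^ (q * n ^ 2) := (one_mul _).symm
      _ ≤ _ := mul_le_mul_of_nonneg_right h5 hP.le

lemma AttainedByDensest.finiteness {q n : ℕ} {A : Fin q → Fin n → Fin n → Bool}
    (h : AttainedByDensest A) : FinitenessProperty fun i => mat (A i) := by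
  obtain ⟨i, -, hi⟩ := h
  refine ⟨1, fun _ => i, one_pos, fun m v _ => ?_⟩
  have := (hi m v).1
  simpa using this

/-- The proportion of the families with the finiteness property tends to one. -/
theorem main_tendsto (q : ℕ) (hq : 1 ≤ q) :
    Filter.Tendsto (fun n : ℕ => (Nat.card {A : Fin q → Fin n → Fin n → Bool //
      FinitenessProperty fun i => mat (A i)} : ℝ) / 2 ^ (q * n ^ 2)) Filter.atTop (nhds 1) := by
  classical
  have h1 : Filter.Tendsto (fun n : ℕ => 1 - 100 * (q : ℝ) ^ 2 * (n : ℝ) ^ (-(1 / 7) : ℝ))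
      Filter.atTop (nhds 1) := by
    have h2 : Filter.Tendsto (fun n : ℕ => (n : ℝ) ^ (-(1 / 7) : ℝ)) Filter.atTop (nhds 0) :=
      (tendsto_rpow_neg_atTop (by norm_num)).comp tendsto_natCast_atTop_atTop
    have h3 := (h2.const_mul (100 * (q : ℝ) ^ 2)).const_sub 1
    simpa using h3
  refine tendsto_of_tendsto_of_tendsto_of_le_of_le' h1 tendsto_const_nhds ?_ ?_
  · filter_upwards [Filter.eventually_ge_atTop 1] with n hn
    have hP : (0 : ℝ) < 2 ^ (q * n ^ 2) := by positivity
    rw [le_div_iff₀ hP]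
    have h4 := main q n hq hn
    rw [Nat.card_eq_fintype_card, Fintype.card_subtype] at h4
    rw [Nat.card_eq_fintype_card, Fintype.card_subtype]
    have h5 : (univ.filter fun A : Fin q → Fin n → Fin n → Bool => AttainedByDensest A).card ≤
        (univ.filter fun A : Fin q → Fin n → Fin n → Bool =>
          FinitenessProperty fun i => mat (A i)).card := by
      refine card_le_card fun A hA => ?_
      rw [mem_filter] at hA ⊢
      exact ⟨hA.1, hA.2.finiteness⟩
    have h6 := card_filter_add_card_filter_not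
      (s := (univ : Finset (Fin q → Fin n → Fin n → Bool))) (fun A => AttainedByDensest A)
    have h7 : (univ : Finset (Fin q → Fin n → Fin n → Bool)).card = 2 ^ (q * n ^ 2) := by
      rw [card_univ]
      simp only [Fintype.card_fun, Fintype.card_fin, Fintype.card_bool]
      rw [← pow_mul, ← pow_mul]; congr 1; ring
    rw [h7] at h6
    have h6' : ((univ.filter fun A : Fin q → Fin n → Fin n → Bool =>
        AttainedByDensest A).card : ℝ) + ((univ.filter fun A : Fin q → Fin n → Fin n → Bool =>
        ¬ AttainedByDensest A).card : ℝ) = 2 ^ (q * n ^ 2) := by exact_mod_cast h6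
    have h5' : ((univ.filter fun A : Fin q → Fin n → Fin n → Bool =>
        AttainedByDensest A).card : ℝ) ≤ ((univ.filter fun A : Fin q → Fin n → Fin n → Bool =>
          FinitenessProperty fun i => mat (A i)).card : ℝ) := by exact_mod_cast h5
    rw [sub_mul, one_mul]
    linarith
  · refine Filter.Eventually.of_forall fun n => ?_
    have hP : (0 : ℝ) < 2 ^ (q * n ^ 2) := by positivity
    rw [div_le_one hP, Nat.card_eq_fintype_card, Fintype.card_subtype]
    have h3 := card_le_univ (univ.filter fun A : Fin q → Fin n → Fin n → Bool =>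
      FinitenessProperty fun i => mat (A i))
    simp only [Fintype.card_fun, Fintype.card_fin, Fintype.card_bool] at h3
    have h4 : ((2 ^ n) ^ n) ^ q = 2 ^ (q * n ^ 2) := by
      rw [← pow_mul, ← pow_mul]; congr 1; ring
    rw [h4] at h3
    exact_mod_cast h3

end Pool.Agent.BinPair
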