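import Mathlib

set_option autoImplicit false

/-!
# Second moments of quadratic forms in independent signs
-/

namespace Pool.Agent.BinPair

open Finset

/-- The sign of a bit. -/
def sg (b : Bool) : ℝ := if b then 1 else -1

lemma sg_not (b : Bool) : sg (!b) = - sg b := by cases b <;> simp [sg]

lemma sg_mul_self (b : Bool) : sg b * sg b = 1 := by cases b <;> simp [sg]

lemma abs_sg (b : Bool) : |sg b| = 1 := by cases b <;> simp [sg]

variable {ι : Type} [Fintype ι] [DecidableEq ι]

/-- Flipping one coordinate. -/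
def flipAt (a : ι) (ω : ι → Bool) : ι → Bool := Function.update ω a (!ω a)

omit [Fintype ι] in
lemma flipAt_inv (a : ι) : Function.Involutive (flipAt a) := by
  intro ω
  simp [flipAt]

omit [Fintype ι] in
lemma sg_flip (a b : ι) (ω : ι → Bool) :
    sg (flipAt a ω b) = (if b = a then -1 else 1) * sg (ω b) := by
  unfold flipAt
  by_cases h : b = a
  · subst h; simp [sg_not]
  · simp [h]

lemma sum_flip (F : (ι → Bool) → ℝ) (a : ι) (hF : ∀ ω, F (flipAt a ω) = - F ω) :
    ∑ ω, F ω = 0 := by
  have h : ∑ ω, F (flipAt a ω) = ∑ ω, F ω :=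
    Equiv.sum_comp (flipAt_inv a).toPerm F
  simp only [hF, sum_neg_distrib] at h
  linarith

lemma sum_four {a b c d : ι} (h : ¬ ((a = b ∧ c = d) ∨ (a = c ∧ b = d) ∨ (a = d ∧ b = c))) :
    ∑ ω : ι → Bool, (sg (ω a) * sg (ω b)) * (sg (ω c) * sg (ω d)) = 0 := by
  have key : ∃ x : ι, (if a = x then (-1 : ℝ) else 1) * (if b = x then -1 else 1) *
      ((if c = x then -1 else 1) * (if d = x then -1 else 1)) = -1 := by
    by_cases hab : a = b
    · refine ⟨c, ?_⟩
      have hcd : d ≠ c := fun h' => h (Or.inl ⟨hab, h'.symm⟩)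
      subst hab
      by_cases hac : a = c <;> simp [hcd, hac]
    · by_cases hac : a = c
      · have hbd : d ≠ b := fun h' => h (Or.inr (Or.inl ⟨hac, h'.symm⟩))
        refine ⟨b, ?_⟩
        subst hac
        simp [hab, hbd]
      · by_cases had : a = d
        · have hbc : c ≠ b := fun h' => h (Or.inr (Or.inr ⟨had, h'.symm⟩))
          refine ⟨b, ?_⟩
          subst had
          simp [hab, hbc]
        · refine ⟨a, ?_⟩
          simp [Ne.symm hab, Ne.symm hac, Ne.symm had]
  obtain ⟨x, hx⟩ := key
  refine sum_flip _ x fun ω => ?_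
  rw [sg_flip, sg_flip, sg_flip, sg_flip]
  linear_combination (sg (ω a) * sg (ω b) * (sg (ω c) * sg (ω d))) * hx

lemma sum_four_le (a b c d : ι) :
    ∑ ω : ι → Bool, (sg (ω a) * sg (ω b)) * (sg (ω c) * sg (ω d)) ≤
      ((if a = b ∧ c = d then 1 else 0) + (if a = c ∧ b = d then 1 else 0) +
        (if a = d ∧ b = c then 1 else 0)) * 2 ^ Fintype.card ι := by
  by_cases h : (a = b ∧ c = d) ∨ (a = c ∧ b = d) ∨ (a = d ∧ b = c)
  · have h1 : ∑ ω : ι → Bool, (sg (ω a) * sg (ω b)) * (sg (ω c) * sg (ω d)) ≤
        ∑ _ω : ι → Bool, (1 : ℝ) := by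
      refine sum_le_sum fun ω _ => ?_
      have : |(sg (ω a) * sg (ω b)) * (sg (ω c) * sg (ω d))| = 1 := by
        rw [abs_mul, abs_mul, abs_mul, abs_sg, abs_sg, abs_sg, abs_sg]; norm_num
      exact this ▸ le_abs_self _
    rw [sum_const, card_univ, Fintype.card_fun, Fintype.card_bool, nsmul_eq_mul, mul_one] at h1
    push_cast at h1
    have h2 : (1 : ℝ) ≤ (if a = b ∧ c = d then 1 else 0) + (if a = c ∧ b = d then 1 else 0) +
        (if a = d ∧ b = c then 1 else 0) := by
      rcases h with h | h | h
      · rw [if_pos h]; split_ifs <;> norm_num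
      · rw [if_pos h]; split_ifs <;> norm_num
      · rw [if_pos h]; split_ifs <;> norm_num
    calc _ ≤ (2 : ℝ) ^ Fintype.card ι := h1
      _ = 1 * 2 ^ Fintype.card ι := (one_mul _).symm
      _ ≤ _ := mul_le_mul_of_nonneg_right h2 (by positivity)
  · rw [sum_four h]
    positivity

/-- Second moment of a quadratic form. -/
theorem second_moment {T : Type} [Fintype T] [DecidableEq T] (e f : T → ι)
    (hinj : Function.Injective fun t => (e t, f t)) :
    ∑ ω : ι → Bool, (∑ t, sg (ω (e t)) * sg (ω (f t))) ^ 2 ≤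
      (((univ.filter fun t => e t = f t).card : ℝ) ^ 2 + 2 * Fintype.card T) *
        2 ^ Fintype.card ι := by
  have h1 : ∑ ω : ι → Bool, (∑ t, sg (ω (e t)) * sg (ω (f t))) ^ 2 =
      ∑ t, ∑ t', ∑ ω : ι → Bool,
        (sg (ω (e t)) * sg (ω (f t))) * (sg (ω (e t')) * sg (ω (f t'))) := by
    simp only [sq, sum_mul_sum]
    rw [sum_comm]
    refine sum_congr rfl fun t _ => ?_
    rw [sum_comm]
  rw [h1]
  calc ∑ t, ∑ t', ∑ ω : ι → Bool,
        (sg (ω (e t)) * sg (ω (f t))) * (sg (ω (e t')) * sg (ω (f t')))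
      ≤ ∑ t, ∑ t', ((if e t = f t ∧ e t' = f t' then (1 : ℝ) else 0) +
        (if e t = e t' ∧ f t = f t' then 1 else 0) +
        (if e t = f t' ∧ f t = e t' then 1 else 0)) * 2 ^ Fintype.card ι :=
        sum_le_sum fun t _ => sum_le_sum fun t' _ => sum_four_le _ _ _ _
    _ = (∑ t, ∑ t', ((if e t = f t ∧ e t' = f t' then (1 : ℝ) else 0) +
        (if e t = e t' ∧ f t = f t' then 1 else 0) +
        (if e t = f t' ∧ f t = e t' then 1 else 0))) * 2 ^ Fintype.card ι := by
        simp only [sum_mul]
    _ ≤ _ := by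
        refine mul_le_mul_of_nonneg_right ?_ (by positivity)
        simp only [sum_add_distrib]
        have e1 : ∑ t, ∑ t', (if e t = f t ∧ e t' = f t' then (1 : ℝ) else 0) =
            ((univ.filter fun t => e t = f t).card : ℝ) ^ 2 := by
          have : ∀ t t', (if e t = f t ∧ e t' = f t' then (1 : ℝ) else 0) =
              (if e t = f t then 1 else 0) * (if e t' = f t' then 1 else 0) := by
            intro t t'
            by_cases h1 : e t = f t <;> by_cases h2 : e t' = f t' <;> simp [h1, h2]
          simp only [this]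
          rw [← sum_mul_sum]
          simp [sq]
        have e2 : ∀ t, ∑ t', (if e t = e t' ∧ f t = f t' then (1 : ℝ) else 0) ≤ 1 := by
          intro t
          rw [sum_boole]
          have : (univ.filter fun t' => e t = e t' ∧ f t = f t').card ≤ 1 := by
            rw [card_le_one]
            intro x hx y hy
            simp only [mem_filter, mem_univ, true_and] at hx hy
            exact hinj (Prod.ext (hx.1.symm.trans hy.1) (hx.2.symm.trans hy.2))
          exact_mod_cast this
        have e3 : ∀ t, ∑ t', (if e t = f t' ∧ f t = e t' then (1 : ℝ) else 0) ≤ 1 := by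
          intro t
          rw [sum_boole]
          have : (univ.filter fun t' => e t = f t' ∧ f t = e t').card ≤ 1 := by
            rw [card_le_one]
            intro x hx y hy
            simp only [mem_filter, mem_univ, true_and] at hx hy
            exact hinj (Prod.ext (hx.2.symm.trans hy.2) (hx.1.symm.trans hy.1))
          exact_mod_cast this
        have e4 := sum_le_sum (s := (univ : Finset T)) fun t _ => e2 t
        have e5 := sum_le_sum (s := (univ : Finset T)) fun t _ => e3 t
        simp only [sum_const, card_univ, nsmul_eq_mul, mul_one] at e4 e5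
        rw [e1]
        linarith

/-- Markov's inequality for the counting measure. -/
lemma markov {Ω : Type} [Fintype Ω] (F : Ω → ℝ) (hF : ∀ ω, 0 ≤ F ω) (B c : ℝ) (hc : 0 < c)
    (h : ∑ ω, F ω ≤ B) : ((univ.filter fun ω => c < F ω).card : ℝ) ≤ B / c := by
  rw [le_div_iff₀ hc]
  calc ((univ.filter fun ω => c < F ω).card : ℝ) * c = ∑ _ω ∈ univ.filter fun ω => c < F ω, c := by
        rw [sum_const, nsmul_eq_mul]
    _ ≤ ∑ ω ∈ univ.filter fun ω => c < F ω, F ω :=
        sum_le_sum fun ω hω => (mem_filter.1 hω).2.le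
    _ ≤ ∑ ω, F ω := sum_le_sum_of_subset_of_nonneg (filter_subset _ _) fun ω _ _ => hF ω
    _ ≤ B := h

end Pool.Agent.BinPair
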