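import Pool.Agent.BinPair.Det

set_option autoImplicit false

/-!
# Perturbations of a rank one operator
-/

namespace Pool.Agent.BinPair

open scoped RealInnerProductSpace

/-- The system attached to `X i = (N/2) u u^T + L i / 2` where `N = w ^ 28`. -/
theorem sys_of_pert {H ι : Type} [NormedAddCommGroup H] [InnerProductSpace ℝ H]
    (X Y L L' : ι → H →ₗ[ℝ] H) (u : H) (w : ℝ) (hw : 2 ≤ w) (hu : ‖u‖ = 1)
    (hX : ∀ i y, X i y = (w ^ 28 / 2 * ⟪u, y⟫) • u + (1 / 2 : ℝ) • L i y)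
    (hY : ∀ i y, Y i y = (w ^ 28 / 2 * ⟪u, y⟫) • u + (1 / 2 : ℝ) • L' i y)
    (hadj : ∀ i x y, ⟪L i x, y⟫ = ⟪x, L' i y⟫)
    (hL : ∀ i y, ‖L i y‖ ≤ w ^ 22 * ‖y‖) (hL' : ∀ i y, ‖L' i y‖ ≤ w ^ 22 * ‖y‖)
    (hu1 : ∀ i, ‖L i u‖ ≤ w ^ 15) (hu2 : ∀ i, ‖L' i u‖ ≤ w ^ 15)
    (hc : ∀ i j, |⟪L' i u, L j u⟫| ≤ w ^ 16) (hs : ∀ i, |⟪u, L i u⟫| ≤ w) :
    Sys X Y u (fun i => w ^ 28 / 2 + ⟪u, L i u⟫ / 2) (w ^ 15 / 2) (w ^ 22 / 2) (w ^ 16 / 2)
      (4 / w ^ 13) (w ^ 28 / 4) := by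
  have hw0 : 0 < w := by linarith
  have huu : ⟪u, u⟫ = (1 : ℝ) := by
    rw [real_inner_self_eq_norm_sq, hu]; norm_num
  have p1 : ∀ v : H, ‖v - ⟪u, v⟫ • u‖ ≤ ‖v‖ := by
    intro v
    have h1 : ‖v - ⟪u, v⟫ • u‖ ^ 2 = ‖v‖ ^ 2 - ⟪u, v⟫ ^ 2 := by
      rw [norm_sub_sq_real, norm_smul, hu, inner_smul_right, real_inner_comm v u]
      rw [mul_one, Real.norm_eq_abs, sq_abs]
      ring
    have h2 : ‖v - ⟪u, v⟫ • u‖ ^ 2 ≤ ‖v‖ ^ 2 := by rw [h1]; nlinarith [sq_nonneg ⟪u, v⟫]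
    exact (sq_le_sq₀ (norm_nonneg _) (norm_nonneg _)).1 h2
  have hsL' : ∀ i, ⟪u, L' i u⟫ = ⟪u, L i u⟫ := by
    intro i; rw [← hadj, real_inner_comm]
  have hrow : ∀ i, X i u - (w ^ 28 / 2 + ⟪u, L i u⟫ / 2) • u =
      (1 / 2 : ℝ) • (L i u - ⟪u, L i u⟫ • u) := by
    intro i
    rw [hX, huu, smul_sub, smul_smul, add_smul, mul_one]
    have : (1 / 2 * ⟪u, L i u⟫ : ℝ) = ⟪u, L i u⟫ / 2 := by ring
    rw [this]; abel
  have hcol : ∀ i, Y i u - (w ^ 28 / 2 + ⟪u, L i u⟫ / 2) • u =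
      (1 / 2 : ℝ) • (L' i u - ⟪u, L i u⟫ • u) := by
    intro i
    rw [hY, huu, smul_sub, smul_smul, add_smul, mul_one]
    have : (1 / 2 * ⟪u, L i u⟫ : ℝ) = ⟪u, L i u⟫ / 2 := by ring
    rw [this]; abel
  have h13 : (0 : ℝ) < w ^ 13 := by positivity
  have pw : ∀ k : ℕ, (2 : ℝ) ^ k ≤ w ^ k := fun k => pow_le_pow_left₀ (by norm_num) hw k
  have hR : 4 / w ^ 13 * w ^ 13 = 4 := by field_simp
  refine
    { unit := hu
      adj := ?_
      sig := ?_
      row := ?_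
      col := ?_
      opX := ?_
      opY := ?_
      cr := ?_
      ρ0 := by positivity
      κ0 := by positivity
      M0 := by positivity
      R0 := by positivity
      R1 := ?_
      d0 := by positivity
      dσ := ?_
      ball := ?_
      con := ?_ }
  · intro i x y
    rw [hX, hY, inner_add_left, inner_add_right, inner_smul_left, inner_smul_right,
      inner_smul_left, inner_smul_right, hadj, real_inner_comm u x]
    simp
    ring
  · intro i
    rw [hX, inner_add_right, inner_smul_right, inner_smul_right, huu]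
    ring
  · intro i
    simp only [hrow]
    rw [norm_smul]
    have h1 := (p1 (L i u)).trans (hu1 i)
    norm_num
    linarith
  · intro i
    simp only [hcol]
    rw [norm_smul, ← hsL']
    have h1 := (p1 (L' i u)).trans (hu2 i)
    norm_num
    linarith
  · intro i y hy
    rw [hX, hy, mul_zero, zero_smul, zero_add, norm_smul]
    have h1 := hL i y
    norm_num
    linarith
  · intro i y hy
    rw [hY, hy, mul_zero, zero_smul, zero_add, norm_smul]
    have h1 := hL' i y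
    norm_num
    linarith
  · intro i j
    simp only [hrow, hcol]
    rw [inner_smul_left, inner_smul_right, inner_sub_left, inner_sub_right, inner_sub_right,
      inner_smul_left, inner_smul_right, inner_smul_right, inner_smul_left, huu,
      real_inner_comm u (L' i u), hsL']
    have h1 : |⟪u, L i u⟫ * ⟪u, L j u⟫| ≤ w * w := by
      rw [abs_mul]; exact mul_le_mul (hs i) (hs j) (abs_nonneg _) hw0.le
    have h2 := abs_le.1 h1
    have h3 := abs_le.1 (hc i j)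
    have h4 : w * w ≤ w ^ 16 := by
      have : w ^ 2 ≤ w ^ 16 := pow_le_pow_right₀ (by linarith) (by norm_num)
      linarith [sq w]
    simp only [conj_trivial]
    rw [abs_le]
    constructor <;> nlinarith
  · rw [div_le_iff₀ h13]
    have := pw 13
    norm_num at this
    linarith
  · intro i
    have h1 := (abs_le.1 (hs i)).1
    have h2 : w ^ 15 / 2 * (4 / w ^ 13) = 2 * w ^ 2 := by field_simp; ring
    rw [h2]
    have h3 : w ^ 28 = w ^ 26 * w ^ 2 := by ring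
    have h4 := pw 26
    norm_num at h4
    have h5 : w ≤ w ^ 2 := by nlinarith
    nlinarith [pow_pos hw0 2]
  · have h1 : w ^ 15 / 2 + w ^ 22 / 2 * (4 / w ^ 13) = w ^ 15 / 2 + 2 * w ^ 9 := by
      field_simp; ring
    have h2 : 4 / w ^ 13 * (w ^ 28 / 4) = w ^ 15 := by field_simp
    rw [h1, h2]
    have h3 := pw 6
    norm_num at h3
    have h4 : w ^ 15 = w ^ 6 * w ^ 9 := by ring
    rw [h4]
    nlinarith [pow_pos hw0 9]
  · have h1 : 4 / w ^ 13 * (w ^ 15 / 2) = 2 * w ^ 2 := by field_simp; ring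
    rw [h1]
    have h3 := pw 6
    norm_num at h3
    have h4 : w ^ 28 = w ^ 6 * w ^ 22 := by ring
    have h5 := pw 20
    norm_num at h5
    have h6 : w ^ 22 = w ^ 20 * w ^ 2 := by ring
    have h7 : 1048576 * w ^ 2 ≤ w ^ 22 := by rw [h6]; nlinarith [pow_pos hw0 2]
    have h8 : 64 * w ^ 22 ≤ w ^ 28 := by rw [h4]; nlinarith [pow_pos hw0 22]
    nlinarith [pow_pos hw0 2, pow_pos hw0 22]

/-- The gap needed for the growth estimate. -/
lemma gap_le (w : ℝ) (hw : 2 ≤ w) :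
    4 * ((w ^ 16 / 2 + 4 / w ^ 13 * (w ^ 22 / 2) * (w ^ 15 / 2)) / (w ^ 28 / 4)) +
      2 * (w ^ 22 / 2 * (4 / w ^ 13) ^ 2) ≤ 40 / w ^ 4 := by
  have hw0 : 0 < w := by linarith
  have h1 : 4 * ((w ^ 16 / 2 + 4 / w ^ 13 * (w ^ 22 / 2) * (w ^ 15 / 2)) / (w ^ 28 / 4)) +
      2 * (w ^ 22 / 2 * (4 / w ^ 13) ^ 2) = 8 / w ^ 12 + 32 / w ^ 4 := by
    field_simp; ring
  rw [h1]
  have h2 : 8 / w ^ 12 ≤ 8 / w ^ 4 := by
    apply div_le_div_of_nonneg_left (by norm_num) (by positivity)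
    exact pow_le_pow_right₀ (by linarith) (by norm_num)
  have h3 : 40 / w ^ 4 = 8 / w ^ 4 + 32 / w ^ 4 := by ring
  linarith

end Pool.Agent.BinPair
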